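import Mathlib

/-! Hamiltonian king paths of sets of cells: gluing, strips, tracks, bands, rectangles. -/

set_option autoImplicit false

namespace Pool.Agent.MP_3c4208_co.U

/-- Cells. -/
abbrev Cl : Type := ℕ × ℕ

/-- Both coordinates differ by at most one. -/
def Nr (p q : Cl) : Prop := p.1 ≤ q.1 + 1 ∧ q.1 ≤ p.1 + 1 ∧ p.2 ≤ q.2 + 1 ∧ q.2 ≤ p.2 + 1

theorem Nr.symm {p q : Cl} (h : Nr p q) : Nr q p := by
  unfold Nr at *; omega

/-- The set `S` is the set of cells of a king path from `a` to `b`. -/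
def HP (S : Cl → Prop) (a b : Cl) : Prop :=
  ∃ L : List Cl, L.Nodup ∧ L.IsChain Nr ∧ L.head? = some a ∧ L.getLast? = some b ∧
    ∀ c, c ∈ L ↔ S c

theorem HP.single (a : Cl) : HP (fun c => c = a) a a :=
  ⟨[a], by simp, by simp, rfl, rfl, by simp⟩

theorem HP.congr {S T : Cl → Prop} {a b : Cl} (h : HP S a b) (e : ∀ c, S c ↔ T c) : HP T a b := by
  obtain ⟨L, h1, h2, h3, h4, h5⟩ := h
  exact ⟨L, h1, h2, h3, h4, fun c => (h5 c).trans (e c)⟩

theorem HP.symm {S : Cl → Prop} {a b : Cl} (h : HP S a b) : HP S b a := by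
  obtain ⟨L, h1, h2, h3, h4, h5⟩ := h
  refine ⟨L.reverse, List.nodup_reverse.2 h1, ?_, by simpa using h4, by simpa using h3, by simpa using h5⟩
  rw [List.isChain_reverse]
  exact h2.imp fun _ _ h => h.symm

theorem HP.app {S T : Cl → Prop} {a b c d : Cl} (h : HP S a b) (h' : HP T c d) (hn : Nr b c)
    (hd : ∀ x, S x → T x → False) : HP (fun x => S x ∨ T x) a d := by
  obtain ⟨L, h1, h2, h3, h4, h5⟩ := h
  obtain ⟨M, g1, g2, g3, g4, g5⟩ := h'
  refine ⟨L ++ M, ?_, ?_, ?_, ?_, ?_⟩
  · rw [List.nodup_append]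
    exact ⟨h1, g1, fun x hx y hy e => hd x ((h5 x).1 hx) ((g5 x).1 (e ▸ hy))⟩
  · rw [List.isChain_append]
    refine ⟨h2, g2, fun x hx y hy => ?_⟩
    rw [h4] at hx; rw [g3] at hy
    simp only [Option.mem_def, Option.some.injEq] at hx hy
    rw [← hx, ← hy]; exact hn
  · rw [List.head?_append, h3]; rfl
  · rw [List.getLast?_append, g4]; rfl
  · intro x; rw [List.mem_append, h5, g5]

theorem HP.swap {S : Cl → Prop} {a b : Cl} (h : HP S a b) :
    HP (fun c => S c.swap) a.swap b.swap := by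
  obtain ⟨L, h1, h2, h3, h4, h5⟩ := h
  refine ⟨L.map Prod.swap, h1.map Prod.swap_injective, ?_, by simp [h3], by simp [h4], ?_⟩
  · rw [List.isChain_map]
    refine h2.imp fun p q h => ?_
    unfold Nr at *; simp only [Prod.fst_swap, Prod.snd_swap]; omega
  · intro c
    show _ ↔ S c.swap
    rw [← h5, List.mem_map]
    constructor
    · rintro ⟨x, hx, rfl⟩; simpa using hx
    · intro hx; exact ⟨c.swap, hx, by simp⟩

/-- Concatenation of a family of paths, told apart by the index function `ix`. -/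
theorem HP.chain (ix : Cl → ℕ) (S : ℕ → Cl → Prop) (a b : ℕ → Cl) (l : ℕ) :
    ∀ m, l ≤ m → (∀ i, l ≤ i → i ≤ m → HP (S i) (a i) (b i)) →
      (∀ i, l ≤ i → i < m → Nr (b i) (a (i + 1))) → (∀ i c, l ≤ i → i ≤ m → S i c → ix c = i) →
      HP (fun c => l ≤ ix c ∧ ix c ≤ m ∧ S (ix c) c) (a l) (b m) := by
  intro m hm
  induction m, hm using Nat.le_induction with
  | base =>
    intro h1 _ h3
    refine (h1 l le_rfl le_rfl).congr fun c => ⟨fun h => ?_, fun h => ?_⟩
    · have := h3 l c le_rfl le_rfl h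
      rw [this]; exact ⟨le_rfl, le_rfl, h⟩
    · have : ix c = l := by omega
      rw [← this]; exact h.2.2
  | succ m hm ih =>
    intro h1 h2 h3
    have A := ih (fun i p q => h1 i p (by omega)) (fun i p q => h2 i p (by omega))
      (fun i c p q => h3 i c p (by omega))
    refine (A.app (h1 (m + 1) (by omega) le_rfl) (h2 m hm (by omega)) ?_).congr ?_
    · intro x hx hy
      have := h3 _ x (by omega) le_rfl hy
      omega
    · intro c
      constructor
      · rintro (h | h)
        · exact ⟨h.1, by omega, h.2.2⟩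
        · have := h3 _ c (by omega) le_rfl h
          rw [this]; exact ⟨by omega, le_rfl, h⟩
      · rintro ⟨p, q, s⟩
        by_cases e : ix c = m + 1
        · right; rw [← e]; exact s
        · left; exact ⟨p, by omega, s⟩

/-- The graph of a Lipschitz function over an interval of columns. -/
theorem track (f : ℕ → ℕ) (a b : ℕ) (hab : a ≤ b)
    (hf : ∀ x, a ≤ x → x < b → f x ≤ f (x + 1) + 1 ∧ f (x + 1) ≤ f x + 1) :
    HP (fun c => a ≤ c.1 ∧ c.1 ≤ b ∧ c.2 = f c.1) (a, f a) (b, f b) := by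
  refine (HP.chain Prod.fst (fun i c => c = (i, f i)) (fun i => (i, f i)) (fun i => (i, f i)) a b hab
    (fun i _ _ => HP.single _) (fun i p q => ?_) (fun i c _ _ h => by rw [h])).congr fun c => ?_
  · have := hf i p q
    unfold Nr; dsimp only; omega
  · simp only [Prod.ext_iff, true_and]

/-- A horizontal segment. -/
theorem rowP (y a b : ℕ) (hab : a ≤ b) :
    HP (fun c => a ≤ c.1 ∧ c.1 ≤ b ∧ c.2 = y) (a, y) (b, y) :=
  track (fun _ => y) a b hab fun _ _ _ => by omega

/-- A vertical segment. -/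
theorem colP (x a b : ℕ) (hab : a ≤ b) :
    HP (fun c => c.1 = x ∧ a ≤ c.2 ∧ c.2 ≤ b) (x, a) (x, b) :=
  (rowP x a b hab).swap.congr fun c => by
    simp only [Prod.fst_swap, Prod.snd_swap]; omega

/-- A pair of columns run through row by row over the free cells. -/
theorem strip (F : Cl → Prop) (u v y1 y2 : ℕ) (huv : u = v + 1 ∨ v = u + 1) (hy : y1 ≤ y2)
    (hF : ∀ y, y1 ≤ y → y ≤ y2 → F (u, y) ∨ F (v, y)) (h1 : F (u, y1)) (h2 : F (v, y2)) :
    HP (fun c => (c.1 = u ∨ c.1 = v) ∧ y1 ≤ c.2 ∧ c.2 ≤ y2 ∧ F c) (u, y1) (v, y2) := by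
  classical
  have A := HP.chain Prod.snd (fun i c => (c = (u, i) ∨ c = (v, i)) ∧ F c)
    (fun i => if F (u, i) then (u, i) else (v, i)) (fun i => if F (v, i) then (v, i) else (u, i))
    y1 y2 hy ?_ ?_ ?_
  · simp only [h1, h2, if_true] at A
    refine A.congr fun c => ?_
    simp only [Prod.ext_iff, and_true]
    tauto
  · intro i p q
    by_cases a : F (u, i) <;> by_cases b : F (v, i) <;> simp only [a, b, if_true, if_false]
    · refine ((HP.single (u, i)).app (HP.single (v, i)) ?_ ?_).congr fun c => ?_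
      · unfold Nr; dsimp only; omega
      · rintro x rfl h
        simp only [Prod.ext_iff] at h; omega
      · constructor
        · rintro (rfl | rfl)
          · exact ⟨Or.inl rfl, a⟩
          · exact ⟨Or.inr rfl, b⟩
        · exact fun h => h.1
    · refine (HP.single (u, i)).congr fun c => ⟨?_, ?_⟩
      · rintro rfl; exact ⟨Or.inl rfl, a⟩
      · rintro ⟨rfl | rfl, h⟩
        · rfl
        · exact absurd h b
    · refine (HP.single (v, i)).congr fun c => ⟨?_, ?_⟩
      · rintro rfl; exact ⟨Or.inr rfl, b⟩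
      · rintro ⟨rfl | rfl, h⟩
        · exact absurd h a
        · rfl
    · exact absurd (hF i p q) (by tauto)
  · intro i _ _
    unfold Nr
    split_ifs <;> dsimp only <;> omega
  · rintro i c _ _ ⟨rfl | rfl, _⟩ <;> rfl

/-- A band of columns run through column by column; the columns of parity `e` go up. -/
theorem band (lo hi : ℕ → ℕ) (e a b : ℕ) (hab : a ≤ b) (h0 : ∀ x, a ≤ x → x ≤ b → lo x ≤ hi x)
    (h1 : ∀ x, a ≤ x → x < b → x % 2 = e → hi x ≤ hi (x + 1) + 1 ∧ hi (x + 1) ≤ hi x + 1)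
    (h2 : ∀ x, a ≤ x → x < b → x % 2 ≠ e → lo x ≤ lo (x + 1) + 1 ∧ lo (x + 1) ≤ lo x + 1)
    (he : e < 2) :
    HP (fun c => a ≤ c.1 ∧ c.1 ≤ b ∧ lo c.1 ≤ c.2 ∧ c.2 ≤ hi c.1)
      (a, if a % 2 = e then lo a else hi a) (b, if b % 2 = e then hi b else lo b) := by
  refine (HP.chain Prod.fst (fun i c => c.1 = i ∧ lo i ≤ c.2 ∧ c.2 ≤ hi i)
    (fun i => (i, if i % 2 = e then lo i else hi i)) (fun i => (i, if i % 2 = e then hi i else lo i))
    a b hab (fun i p q => ?_) (fun i p q => ?_) (fun i c _ _ h => h.1)).congr fun c => ?_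
  · split_ifs
    · exact colP i _ _ (h0 i p q)
    · exact (colP i _ _ (h0 i p q)).symm
  · have := h1 i p q
    have := h2 i p q
    unfold Nr
    split_ifs <;> dsimp only <;> omega
  · simp only [true_and]

/-- A rectangle has a Hamiltonian path from the lower left to the upper left corner. -/
theorem rect (a b h : ℕ) (hab : a ≤ b) (hh : 2 ≤ h) :
    HP (fun c => a ≤ c.1 ∧ c.1 ≤ b ∧ c.2 ≤ h) (a, 0) (a, h) := by
  by_cases hp : h % 2 = 1
  · have A := (band (fun _ => a) (fun _ => b) 0 0 h (by omega) (fun _ _ _ => hab)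
      (fun _ _ _ _ => by omega) (fun _ _ _ _ => by omega) (by omega)).swap
    simp only [hp, Prod.swap_prod_mk, Nat.zero_mod, if_true, one_ne_zero, if_false] at A
    exact A.congr fun c => by simp only [Prod.fst_swap, Prod.snd_swap]; omega
  · have hq : (h - 2) % 2 = 0 := by omega
    have A := (band (fun _ => a) (fun _ => b) 0 0 (h - 2) (by omega) (fun _ _ _ => hab)
      (fun _ _ _ _ => by omega) (fun _ _ _ _ => by omega) (by omega)).swap
    simp only [hq, Prod.swap_prod_mk, Nat.zero_mod, if_true] at A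
    have B := (strip (fun _ => True) h (h - 1) a b (by omega) hab (fun _ _ _ => Or.inl trivial)
      trivial trivial).swap.symm
    simp only [Prod.swap_prod_mk] at B
    refine (A.app B ?_ ?_).congr fun c => ?_
    · unfold Nr; dsimp only; omega
    · intro x; simp only [Prod.fst_swap, Prod.snd_swap, and_true]; omega
    · simp only [Prod.fst_swap, Prod.snd_swap, and_true]; omega

end Pool.Agent.MP_3c4208_co.U
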