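import Mathlib
import Pool.Agent.MP_3c4208_co.U.Base

/-! Counting cells of the box. -/

set_option autoImplicit false

namespace Pool.Agent.MP_3c4208_co.U

open Finset

open Classical in
/-- The number of cells of the `n × n` box in `S`. -/
noncomputable def ct (n : ℕ) (S : Cl → Prop) : ℕ := ((range n ×ˢ range n).filter S).card

theorem ct_mono {n : ℕ} {S T : Cl → Prop} (h : ∀ c : Cl, c.1 < n → c.2 < n → S c → T c) :
    ct n S ≤ ct n T := by
  unfold ct
  refine card_le_card fun c hc => ?_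
  simp only [mem_filter, mem_product, mem_range] at hc ⊢
  exact ⟨hc.1, h c hc.1.1 hc.1.2 hc.2⟩

theorem ct_congr {n : ℕ} {S T : Cl → Prop} (h : ∀ c : Cl, c.1 < n → c.2 < n → (S c ↔ T c)) :
    ct n S = ct n T :=
  le_antisymm (ct_mono fun c a b => (h c a b).1) (ct_mono fun c a b => (h c a b).2)

theorem ct_or {n : ℕ} {S T : Cl → Prop} (h : ∀ c, S c → T c → False) :
    ct n (fun c => S c ∨ T c) = ct n S + ct n T := by
  classical
  unfold ct
  rw [← card_union_of_disjoint]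
  · congr 1; ext c; simp only [mem_filter, mem_union]; tauto
  · rw [disjoint_left]
    intro c a b
    exact h c (mem_filter.1 a).2 (mem_filter.1 b).2

theorem ct_or_le {n : ℕ} (S T : Cl → Prop) : ct n (fun c => S c ∨ T c) ≤ ct n S + ct n T := by
  classical
  unfold ct
  refine le_trans (card_le_card fun c hc => ?_) (card_union_le _ _)
  simp only [mem_filter, mem_union] at hc ⊢; tauto

theorem ct_false {n : ℕ} {S : Cl → Prop} (h : ∀ c, ¬ S c) : ct n S = 0 := by
  classical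
  unfold ct
  rw [card_eq_zero, filter_eq_empty_iff]
  exact fun c _ => h c

theorem ct_split {n : ℕ} (S T : Cl → Prop) :
    ct n S = ct n (fun c => S c ∧ T c) + ct n (fun c => S c ∧ ¬ T c) := by
  rw [← ct_or (by tauto)]
  exact ct_congr fun c _ _ => by tauto

/-- Count of a disjoint union over a finite index set. -/
theorem ct_union {n : ℕ} (I : Finset ℕ) (S : ℕ → Cl → Prop)
    (h : ∀ i ∈ I, ∀ j ∈ I, ∀ c, S i c → S j c → i = j) :
    ct n (fun c => ∃ i ∈ I, S i c) = ∑ i ∈ I, ct n (S i) := by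
  classical
  induction I using Finset.induction_on with
  | empty => simpa using ct_false (by simp)
  | insert a I ha ih =>
    rw [sum_insert ha, ← ih (fun i hi j hj => h i (mem_insert_of_mem hi) j (mem_insert_of_mem hj)),
      ← ct_or]
    · exact ct_congr fun c _ _ => by simp
    · rintro c hc ⟨i, hi, hs⟩
      exact ha (h a (mem_insert_self _ _) i (mem_insert_of_mem hi) c hc hs ▸ hi)

theorem ct_col {n : ℕ} (x lo hi : ℕ) (hx : x < n) (hh : hi ≤ n) :
    ct n (fun c => c.1 = x ∧ lo ≤ c.2 ∧ c.2 < hi) = hi - lo := by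
  classical
  unfold ct
  rw [← Nat.card_Ico, ← card_image_of_injective (Ico lo hi) (f := fun y => ((x, y) : Cl))
    (fun a b h => by simpa using h)]
  congr 1; ext c
  simp only [mem_filter, mem_product, mem_range, mem_image, mem_Ico]
  constructor
  · rintro ⟨_, rfl, h⟩; exact ⟨c.2, h, rfl⟩
  · rintro ⟨y, h, rfl⟩; dsimp only; omega

theorem ct_band {n : ℕ} (lo hi : ℕ → ℕ) (a b : ℕ) (hb : b ≤ n) (hh : ∀ x, a ≤ x → x < b → hi x ≤ n) :
    ct n (fun c => a ≤ c.1 ∧ c.1 < b ∧ lo c.1 ≤ c.2 ∧ c.2 < hi c.1) =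
      ∑ x ∈ Ico a b, (hi x - lo x) := by
  rw [← sum_congr rfl fun x hx => ct_col (n := n) x (lo x) (hi x)
    (lt_of_lt_of_le (mem_Ico.1 hx).2 hb) (hh x (mem_Ico.1 hx).1 (mem_Ico.1 hx).2), ← ct_union]
  · refine ct_congr fun c _ _ => ⟨fun h => ⟨c.1, mem_Ico.2 ⟨h.1, h.2.1⟩, rfl, h.2.2⟩, ?_⟩
    rintro ⟨i, hi, rfl, h⟩
    exact ⟨(mem_Ico.1 hi).1, (mem_Ico.1 hi).2, h⟩
  · intro i _ j _ c a b; rw [← a.1, b.1]

theorem ct_rect {n : ℕ} (a b lo hi : ℕ) (hb : b ≤ n) (hh : hi ≤ n) :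
    ct n (fun c => a ≤ c.1 ∧ c.1 < b ∧ lo ≤ c.2 ∧ c.2 < hi) = (b - a) * (hi - lo) := by
  have := ct_band (n := n) (fun _ => lo) (fun _ => hi) a b hb fun _ _ _ => hh
  simpa using this

theorem ct_graph {n : ℕ} (f : ℕ → ℕ) (a b : ℕ) (hb : b ≤ n) (hh : ∀ x, a ≤ x → x < b → f x < n) :
    ct n (fun c => a ≤ c.1 ∧ c.1 < b ∧ c.2 = f c.1) = b - a := by
  have := ct_band (n := n) f (fun x => f x + 1) a b hb hh
  simp only [Nat.add_sub_cancel_left, sum_const, Nat.card_Ico, smul_eq_mul, mul_one] at this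
  rw [← this]
  exact ct_congr fun c _ _ => by omega

theorem length_eq_ct {n : ℕ} {S : Cl → Prop} {L : List Cl} (h1 : L.Nodup) (h : ∀ c, c ∈ L ↔ S c)
    (hb : ∀ c, S c → c.1 < n ∧ c.2 < n) : L.length = ct n S := by
  classical
  unfold ct
  rw [← List.toFinset_card_of_nodup h1]
  congr 1; ext c
  simp only [List.mem_toFinset, mem_filter, mem_product, mem_range, h]
  exact ⟨fun a => ⟨hb c a, a⟩, fun a => a.2⟩

end Pool.Agent.MP_3c4208_co.U
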