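import Mathlib
import Pool.Agent.MP_3c4208_co.U.Cnt

/-! The track-free upper region is cut into pieces of prescribed sizes, each with a Hamiltonian path
between two neighbouring cells of its bottom row. -/

set_option autoImplicit false
set_option linter.unusedSectionVars false

namespace Pool.Agent.MP_3c4208_co.U

open Finset

theorem piece (n H p q e : ℕ) (hH : H + 4 ≤ n) (hp : p % 2 = 0) (hq : q % 2 = 1) (he : e % 2 = 0)
    (h1 : p + 2 ≤ e) (h2 : e + 3 ≤ q) (Lg Rg : Cl → Prop) (hL : ∀ c, Lg c → c.1 < p)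
    (hR : ∀ c, Rg c → q < c.1)
    (PL : HP (fun c => Lg c ∨ (c.1 = p ∧ n - 2 ≤ c.2 ∧ c.2 ≤ n - 1)) (p, n - 1) (p, n - 2))
    (PR : HP (fun c => Rg c ∨ (c.1 = q ∧ H ≤ c.2 ∧ c.2 ≤ H + 1)) (q, H) (q, H + 1)) :
    HP (fun c => Lg c ∨ Rg c ∨ (p ≤ c.1 ∧ c.1 ≤ q ∧ H ≤ c.2 ∧ c.2 < n)) (e, H) (e + 1, H) := by
  have B1 := band (fun _ => H) (fun _ => n - 2) 1 (e + 1) (q - 1) (by omega) (fun _ _ _ => by omega)
    (fun _ _ _ _ => by omega) (fun _ _ _ _ => by omega) (by omega)
  rw [if_pos (by omega), if_neg (by omega)] at B1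
  have B2 := band (fun _ => H) (fun _ => n - 2) 1 (p + 1) e (by omega) (fun _ _ _ => by omega)
    (fun _ _ _ _ => by omega) (fun _ _ _ _ => by omega) (by omega)
  rw [if_pos (by omega), if_neg (by omega)] at B2
  have C1 := colP q (H + 2) (n - 2) (by omega)
  have C2 := (rowP (n - 1) (p + 1) q (by omega)).symm
  have C3 := (colP p H (n - 3) (by omega)).symm
  have A1 := B1.app PR (by unfold Nr; dsimp only; omega) (fun x a b => by
    have := hR x; rcases b with b | b
    · have := this b; omega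
    · omega)
  have A2 := A1.app C1 (by unfold Nr; dsimp only; omega) (fun x a b => by
    rcases a with a | a | a
    · omega
    · have := hR x a; omega
    · omega)
  have A3 := A2.app C2 (by unfold Nr; dsimp only; omega) (fun x a b => by
    rcases a with (a | a | a) | a
    · omega
    · have := hR x a; omega
    · omega
    · omega)
  have A4 := A3.app PL (by unfold Nr; dsimp only; omega) (fun x a b => by
    have hx : p < x.1 := by
      rcases a with ((a | a | a) | a) | a
      · omega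
      · have := hR x a; omega
      · omega
      · omega
      · omega
    rcases b with b | b
    · have := hL x b; omega
    · omega)
  have A5 := A4.app C3 (by unfold Nr; dsimp only; omega) (fun x a b => by
    rcases a with (((a | a | a) | a) | a) | a | a
    · omega
    · have := hR x a; omega
    · omega
    · omega
    · omega
    · have := hL x a; omega
    · omega)
  have A6 := A5.app B2 (by unfold Nr; dsimp only; omega) (fun x a b => by
    rcases a with ((((a | a | a) | a) | a) | a | a) | a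
    · omega
    · have := hR x a; omega
    · omega
    · omega
    · omega
    · have := hL x a; omega
    · omega
    · omega)
  refine A6.symm.congr fun c => ?_
  by_cases a : Lg c
  · simp [a]
  by_cases b : Rg c
  · simp [b]
  simp only [a, b, false_or]
  omega

/-- The cells of the upper region before a cut: `z` whole columns and `T` cells of the next four. -/
def Cut (n H z T : ℕ) (c : Cl) : Prop :=
  H ≤ c.2 ∧ c.2 < n ∧ (c.1 < z ∨ (z ≤ c.1 ∧ c.1 < z + 4 ∧ c.2 < H + (T + 3 - (c.1 - z)) / 4))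

theorem gadB (n H z T : ℕ) (hz : z % 2 = 0) (h0 : 1 ≤ z) (hT : 8 ≤ T)
    (hn : H + (T + 3) / 4 ≤ n) :
    HP (fun c => (z ≤ c.1 ∧ Cut n H z T c) ∨ (c.1 = z - 1 ∧ H ≤ c.2 ∧ c.2 ≤ H + 1)) (z - 1, H)
      (z - 1, H + 1) := by
  have B := band (fun _ => H + 1) (fun x => H + (T + 3 - (x - z)) / 4 - 1) 0 z (z + 3) (by omega)
    (fun _ _ _ => by omega) (fun _ _ _ _ => by omega) (fun _ _ _ _ => by omega) (by omega)
  rw [if_pos (by omega), if_neg (by omega)] at B
  have A1 := (rowP H (z - 1) (z + 3) (by omega)).app B.symm (by unfold Nr; dsimp only; omega)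
    (fun x a b => by omega)
  have A2 := A1.app (HP.single (z - 1, H + 1)) (by unfold Nr; dsimp only; omega) (fun x a b => by
    subst b; dsimp only at a; omega)
  refine A2.congr fun c => ?_
  simp only [Prod.ext_iff, Cut]
  omega

theorem gadT (n H z T : ℕ) (hz : z % 2 = 0) (hn : H + (T + 3) / 4 + 2 ≤ n) :
    HP (fun c => (c.1 < z + 4 ∧ H ≤ c.2 ∧ c.2 < n ∧ ¬ Cut n H z T c) ∨
      (c.1 = z + 4 ∧ n - 2 ≤ c.2 ∧ c.2 ≤ n - 1)) (z + 4, n - 1) (z + 4, n - 2) := by
  have B := band (fun x => H + (T + 3 - (x - z)) / 4) (fun _ => n - 2) 1 z (z + 3) (by omega)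
    (fun _ _ _ => by omega) (fun _ _ _ _ => by omega) (fun _ _ _ _ => by omega) (by omega)
  rw [if_neg (by omega), if_pos (by omega)] at B
  have A1 := (rowP (n - 1) z (z + 4) (by omega)).symm.app B (by unfold Nr; dsimp only; omega)
    (fun x a b => by omega)
  have A2 := A1.app (HP.single (z + 4, n - 2)) (by unfold Nr; dsimp only; omega) (fun x a b => by
    subst b; dsimp only at a; omega)
  refine A2.congr fun c => ?_
  simp only [Prod.ext_iff, Cut]
  omega

theorem gadW (n H w : ℕ) (hw : 1 ≤ w) (hn : w + 2 ≤ n) (hH : H + 4 ≤ n) :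
    HP (fun c => (w ≤ c.1 ∧ c.1 < n ∧ c.2 < n) ∨ (c.1 = w - 1 ∧ H ≤ c.2 ∧ c.2 ≤ H + 1)) (w - 1, H)
      (w - 1, H + 1) := by
  have A1 := (HP.single (w - 1, H)).app (colP w 0 H (by omega)).symm
    (by unfold Nr; dsimp only; omega) (fun x a b => by subst a; dsimp only at b; omega)
  have A2 := A1.app (rect (w + 1) (n - 1) (n - 1) (by omega) (by omega))
    (by unfold Nr; dsimp only; omega) (fun x a b => by simp only [Prod.ext_iff] at a; omega)
  have A3 := A2.app (colP w (H + 1) (n - 1) (by omega)).symm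
    (by unfold Nr; dsimp only; omega) (fun x a b => by simp only [Prod.ext_iff] at a; omega)
  have A4 := A3.app (HP.single (w - 1, H + 1))
    (by unfold Nr; dsimp only; omega) (fun x a b => by simp only [Prod.ext_iff] at a b; omega)
  refine A4.congr fun c => ?_
  simp only [Prod.ext_iff]
  omega

theorem Cut_ct (n H h z T : ℕ) (hh : H + h = n) (hz : z + 4 ≤ n) (hn : (T + 3) / 4 ≤ h) :
    ct n (Cut n H z T) = h * z + T := by
  have A := ct_rect (n := n) 0 z H n (by omega) le_rfl
  have B := ct_band (n := n) (fun _ => H) (fun x => H + (T + 3 - (x - z)) / 4) z (z + 4) hz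
    (fun x _ _ => by omega)
  rw [sum_Ico_eq_sum_range] at B
  simp only [Nat.add_sub_cancel_left, sum_range_succ, sum_range_zero] at B
  have C : ct n (Cut n H z T) = (z - 0) * (n - H) +
      (0 + (T + 3 - 0) / 4 + (T + 3 - 1) / 4 + (T + 3 - 2) / 4 + (T + 3 - 3) / 4) := by
    rw [← A, ← B, ← ct_or (fun c a b => by omega)]
    exact ct_congr fun c _ _ => by unfold Cut; omega
  rw [C, show n - H = h by omega, Nat.sub_zero, mul_comm]
  omega

/-- Number of whole columns before the cut at `S` cells. -/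
def zz (h S : ℕ) : ℕ := 2 * ((S - 8) / (2 * h))

/-- The first `S` cells of the upper region together with the right wall. -/
def Bf (n N H h S : ℕ) (c : Cl) : Prop :=
  if S = 4 * N * h + (n - 4 * N) * n then c.1 < n ∧ c.2 < n ∧ (H ≤ c.2 ∨ 4 * N ≤ c.1)
  else Cut n H (zz h S) (S - h * zz h S) c

theorem zz_spec (h S : ℕ) (hh : 0 < h) (hS : 8 ≤ S) :
    zz h S % 2 = 0 ∧ h * zz h S + 8 ≤ S ∧ S < h * zz h S + 8 + 2 * h := by
  have a := Nat.div_add_mod (S - 8) (2 * h)
  have b := Nat.mod_lt (S - 8) (show 0 < 2 * h by omega)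
  have c : h * zz h S = 2 * h * ((S - 8) / (2 * h)) := by unfold zz; ring
  refine ⟨by unfold zz; omega, by omega, by omega⟩

/-- Admissible cut values. -/
def Adm (n N h S : ℕ) : Prop :=
  S = 0 ∨ S = 4 * N * h + (n - 4 * N) * n ∨ (8 ≤ S ∧ S + 4 * h ≤ 4 * N * h)

section
variable {n N H h : ℕ} (hh : H + h = n) (h10 : 10 ≤ h) (hN : 4 * N + 2 ≤ n) (hN1 : 1 ≤ N)
include hh h10 hN hN1

theorem zz_lt {S : ℕ} (h8 : 8 ≤ S) (k : ℕ) (hk : S ≤ h * k) : zz h S < k := by
  have := zz_spec h S (by omega) h8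
  exact lt_of_mul_lt_mul_left (a := h) (by omega) (by omega)

theorem lt_zz {S : ℕ} (k : ℕ) (hk : h * (k + 2) + 8 ≤ S) : k < zz h S := by
  have := zz_spec h S (by omega) (by omega)
  rw [mul_add] at hk
  exact lt_of_mul_lt_mul_left (a := h) (by omega) (by omega)

theorem tot_pos : 4 * N * h < 4 * N * h + (n - 4 * N) * n :=
  Nat.lt_add_of_pos_right (Nat.mul_pos (by omega) (by omega))

theorem Bf_zero (c : Cl) : ¬ Bf n N H h 0 c := by
  have := tot_pos hh h10 hN hN1
  unfold Bf
  rw [if_neg (by omega)]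
  simp only [zz, Cut, Nat.zero_sub, Nat.zero_div]
  omega

theorem zz_le {S : ℕ} (h8 : 8 ≤ S) (hS : S + 4 * h ≤ 4 * N * h) : zz h S + 4 < 4 * N := by
  have := zz_lt hh h10 hN hN1 h8 (4 * N - 4) (by
    rw [Nat.mul_sub, mul_comm h, mul_comm h]; omega)
  omega

theorem Bf_box {S : ℕ} (hS : Adm n N h S) (c : Cl) (hc : Bf n N H h S c) :
    c.1 < n ∧ c.2 < n ∧ (H ≤ c.2 ∨ 4 * N ≤ c.1) := by
  have := tot_pos hh h10 hN hN1
  rcases hS with rfl | rfl | ⟨a, b⟩
  · exact absurd hc (Bf_zero hh h10 hN hN1 c)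
  · simpa [Bf] using hc
  · have := zz_le hh h10 hN hN1 a b
    unfold Bf at hc
    rw [if_neg (by omega)] at hc
    unfold Cut at hc; omega

theorem Bf_ct {S : ℕ} (hS : Adm n N h S) : ct n (Bf n N H h S) = S := by
  have := tot_pos hh h10 hN hN1
  rcases hS with rfl | rfl | ⟨a, b⟩
  · exact ct_false (Bf_zero hh h10 hN hN1)
  · have A := ct_rect (n := n) 0 (4 * N) H n (by omega) le_rfl
    have B := ct_rect (n := n) (4 * N) n 0 n le_rfl le_rfl
    rw [show n - H = h by omega] at A
    simp only [Nat.sub_zero] at A B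
    conv_rhs => rw [← A, ← B]
    rw [← ct_or (fun c a b => by omega)]
    exact ct_congr fun c _ _ => by simp only [Bf, if_true]; omega
  · have := zz_le hh h10 hN hN1 a b
    have z := zz_spec h S (by omega) a
    have : Bf n N H h S = Cut n H (zz h S) (S - h * zz h S) := by
      funext c; unfold Bf; rw [if_neg (by omega)]
    rw [this, Cut_ct n H h _ _ hh (by omega) (by omega)]
    omega

theorem Bf_piece {S S' e : ℕ} (he : e % 2 = 0) (h2 : 2 ≤ e) (h3 : e + 4 ≤ 4 * N)
    (hS : S = 0 ∨ (8 ≤ S ∧ S + h * 6 ≤ h * e))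
    (hS' : S' = 4 * N * h + (n - 4 * N) * n ∨ (h * (e + 5) + 8 ≤ S' ∧ S' + 4 * h ≤ 4 * N * h)) :
    HP (fun c => Bf n N H h S' c ∧ ¬ Bf n N H h S c) (e, H) (e + 1, H) ∧
      ∀ c, Bf n N H h S c → Bf n N H h S' c := by
  have := tot_pos hh h10 hN hN1
  obtain ⟨p, Lg, p1, p2, p3, p4, p5⟩ : ∃ (p : ℕ) (Lg : Cl → Prop), p % 2 = 0 ∧ p + 2 ≤ e ∧
      HP (fun c => Lg c ∨ (c.1 = p ∧ n - 2 ≤ c.2 ∧ c.2 ≤ n - 1)) (p, n - 1) (p, n - 2) ∧
      (∀ c, Lg c ↔ c.1 < p ∧ H ≤ c.2 ∧ c.2 < n ∧ ¬ Bf n N H h S c) ∧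
      ∀ c, Bf n N H h S c → c.1 < p ∧ H ≤ c.2 ∧ c.2 < n := by
    rcases hS with rfl | ⟨a, b⟩
    · refine ⟨0, fun _ => False, rfl, by omega, ?_, fun c => by simp, fun c hc =>
        absurd hc (Bf_zero hh h10 hN hN1 c)⟩
      exact (colP 0 (n - 2) (n - 1) (by omega)).symm.congr fun c => by simp
    · have z := zz_spec h S (by omega) a
      have e6 : 6 ≤ e := le_of_mul_le_mul_left (a := h) (by omega) (by omega)
      have z1 := zz_lt hh h10 hN hN1 a (e - 6) (by rw [Nat.mul_sub]; omega)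
      have l : h * e ≤ 4 * N * h := by rw [mul_comm]; exact Nat.mul_le_mul_right _ (by omega)
      have E : Bf n N H h S = Cut n H (zz h S) (S - h * zz h S) := by
        funext c; unfold Bf; rw [if_neg (by omega)]
      rw [E]
      refine ⟨zz h S + 4, _, by omega, by omega, gadT n H _ (S - h * zz h S) z.1 (by omega),
        fun c => Iff.rfl, fun c hc => ?_⟩
      unfold Cut at hc; omega
  obtain ⟨q, Rg, q1, q2, q3, q4, q5⟩ : ∃ (q : ℕ) (Rg : Cl → Prop), q % 2 = 1 ∧ e + 3 ≤ q ∧
      HP (fun c => Rg c ∨ (c.1 = q ∧ H ≤ c.2 ∧ c.2 ≤ H + 1)) (q, H) (q, H + 1) ∧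
      (∀ c, Rg c ↔ q < c.1 ∧ Bf n N H h S' c) ∧
      ∀ c : Cl, c.1 ≤ q → (Bf n N H h S' c ↔ H ≤ c.2 ∧ c.2 < n) := by
    rcases hS' with rfl | ⟨a, b⟩
    · refine ⟨4 * N - 1, _, by omega, by omega, gadW n H (4 * N) (by omega) hN (by omega),
        fun c => ?_, fun c hc => ?_⟩ <;> simp only [Bf, if_true] <;> omega
    · have z := zz_spec h S' (by omega) (by omega)
      have z1 := lt_zz hh h10 hN hN1 (e + 3) a
      have E : Bf n N H h S' = Cut n H (zz h S') (S' - h * zz h S') := by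
        funext c; unfold Bf; rw [if_neg (by omega)]
      rw [E]
      refine ⟨zz h S' - 1, _, by omega, by omega,
        gadB n H _ (S' - h * zz h S') z.1 (by omega) (by omega) (by omega),
        fun c => and_congr_left' (by omega), fun c hc => ?_⟩
      unfold Cut; omega
  refine ⟨(piece n H p q e (by omega) p1 q1 he p2 q2 Lg Rg (fun c hc => ((p4 c).1 hc).1)
    (fun c hc => ((q4 c).1 hc).1) p3 q3).congr fun c => ?_, fun c hc => ?_⟩
  · rw [p4, q4]
    have a := p5 c
    have b := q5 c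
    by_cases u : Bf n N H h S c <;> by_cases v : Bf n N H h S' c <;>
      simp only [u, v, true_iff, false_iff, forall_const, not_true, not_false_eq_true, and_true,
        and_false, false_or, iff_true, iff_false, IsEmpty.forall_iff] at a b ⊢ <;> omega
  · have := p5 c hc
    exact (q5 c (by omega)).2 (by omega)

end

end Pool.Agent.MP_3c4208_co.U
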