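import Mathlib
import Pool.Agent.MP_3c4208_co.U.Upper

/-! Distribution of the lanes and of the upper region among the large gaps. -/

set_option autoImplicit false

namespace Pool.Agent.MP_3c4208_co.U

open Finset

theorem cut (n N H h k : ℕ) (e v : ℕ → ℕ) (hh : H + h = n) (hH : H ≤ h) (h10 : 10 ≤ h)
    (hN : n ≤ 4 * N + 5) (hv : ∀ l, v l ≤ 4 * H) (he : ∀ j, e j = 0 ∨ 24 * n ≤ e j)
    (tot : ∑ j ∈ range (k + 1), e j = ∑ l ∈ range N, v l + (4 * N * h + (n - 4 * N) * n))
    (hN2 : 4 * N + 2 ≤ n) :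
    ∃ l S : ℕ → ℕ, l 0 = 0 ∧ l (k + 1) = N ∧ (∀ j, j ≤ k + 1 → Adm n N h (S j)) ∧
      (∀ j, j ≤ k → l j ≤ l (j + 1) ∧ S (j + 1) + ∑ i ∈ Ico (l j) (l (j + 1)), v i = S j + e j) ∧
      (∀ j, j ≤ k → e j = 0 → l (j + 1) = l j ∧ S (j + 1) = S j) ∧
      ∀ j, j ≤ k → e j ≠ 0 → l j + 4 ≤ l (j + 1) ∧ l (j + 1) ≤ N ∧ ∀ a, l j + 1 ≤ a → a ≤ l j + 2 →
        (S j = 0 ∨ (8 ≤ S j ∧ S j + h * 6 ≤ h * (4 * a + 2))) ∧
        (S (j + 1) = 4 * N * h + (n - 4 * N) * n ∨
          (h * (4 * a + 2 + 5) + 8 ≤ S (j + 1) ∧ S (j + 1) + 4 * h ≤ 4 * N * h)) := by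
  classical
  obtain ⟨W, hW⟩ : ∃ W : ℕ → ℕ, ∀ l, W l = ∑ i ∈ range l, v i := ⟨_, fun _ => rfl⟩
  obtain ⟨E, hE⟩ : ∃ E : ℕ → ℕ, ∀ j, E j = ∑ i ∈ range j, e i := ⟨_, fun _ => rfl⟩
  obtain ⟨P, hP⟩ : ∃ P : ℕ → ℕ, ∀ l, P l = 4 * l * h := ⟨_, fun _ => rfl⟩
  obtain ⟨w, hw⟩ : ∃ w, w = (n - 4 * N) * n := ⟨_, rfl⟩
  have w1 : w ≤ 5 * n := by rw [hw]; exact Nat.mul_le_mul_right _ (by omega)
  have w2 : 2 * n ≤ w := by rw [hw]; exact Nat.mul_le_mul_right _ (by omega)
  rw [← hW, ← hE, ← hP, ← hw] at tot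
  have W0 : W 0 = 0 := by simp [hW]
  have E0 : E 0 = 0 := by simp [hE]
  have P0 : P 0 = 0 := by simp [hP]
  have Ws : ∀ l, W (l + 1) = W l + v l := fun l => by rw [hW, hW, sum_range_succ]
  have Es : ∀ l, E (l + 1) = E l + e l := fun l => by rw [hE, hE, sum_range_succ]
  have Pa : ∀ l d, P (l + d) = P l + 4 * d * h := fun l d => by rw [hP, hP]; ring
  have Pm : ∀ a b, a ≤ b → P a ≤ P b := fun a b q => by
    obtain ⟨d, rfl⟩ := Nat.exists_eq_add_of_le q
    rw [Pa]; omega
  have Wm : ∀ a b, a ≤ b → W a ≤ W b := fun a b q => by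
    induction b, q using Nat.le_induction with
    | base => exact le_rfl
    | succ b _ ih => rw [Ws]; omega
  have Wa : ∀ l d, W (l + d) ≤ W l + 4 * d * H := fun l d => by
    induction d with
    | zero => simp
    | succ d ih =>
      have := hv (l + d)
      rw [← add_assoc, Ws, show 4 * (d + 1) * H = 4 * d * H + 4 * H by ring]; omega
  have Fa : ∀ a b d, b ≤ a + d → W b + P b ≤ W a + P a + 4 * d * H + 4 * d * h := fun a b d q => by
    have := Wm _ _ q; have := Pm _ _ q; have := Wa a d; have := Pa a d; omega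
  have E1 : ∀ j, E j = 0 ∨ 24 * n ≤ E j := fun j => by
    induction j with
    | zero => exact Or.inl E0
    | succ j ih => have := he j; rw [Es]; omega
  have E2 : ∀ d j, j + d = k + 1 → E j = E (k + 1) ∨ E j + 24 * n ≤ E (k + 1) := fun d => by
    induction d with
    | zero => intro j q; left; rw [← q]; rfl
    | succ d ih => intro j q; have := ih (j + 1) (by omega); have := he j; have := Es j; omega
  have ex : ∀ x, ∃ l, l = N ∨ x ≤ W l + P l := fun x => ⟨N, Or.inl rfl⟩
  obtain ⟨f, hf⟩ : ∃ f : ℕ → ℕ, ∀ x, f x = Nat.find (ex x) := ⟨_, fun _ => rfl⟩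
  have f1 : ∀ x, f x ≤ N := fun x => by rw [hf]; exact Nat.find_min' _ (Or.inl rfl)
  have f2 : ∀ x, f x = N ∨ x ≤ W (f x) + P (f x) := fun x => by rw [hf]; exact Nat.find_spec (ex x)
  have f3 : ∀ x l, l < f x → W l + P l < x := fun x l q => by
    rw [hf] at q; have := Nat.find_min (ex x) q; omega
  have f4 : f 0 = 0 := by
    by_contra q
    have := f3 0 0 (by omega); omega
  have f5 : f (E (k + 1)) = N := by
    by_contra q
    have := f1 (E (k + 1)); have := f2 (E (k + 1))
    have := Wm (f (E (k + 1))) N (by omega); have := Pm (f (E (k + 1))) N (by omega); omega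
  have f6 : ∀ x, 0 < x → W (f x) + P (f x) < x + 4 * n := fun x q => by
    by_cases z : f x = 0
    · rw [z]; omega
    · have := f3 x (f x - 1) (by omega)
      have := Fa (f x - 1) (f x) 1 (by omega)
      omega
  have f7 : ∀ x, 24 * n ≤ x → x + 24 * n ≤ E (k + 1) →
      x ≤ W (f x) + P (f x) ∧ 6 ≤ f x ∧ f x + 4 ≤ N := fun x q r => by
    have a := f6 x (by omega)
    have b : f x + 4 ≤ N := by
      by_contra z
      have := Fa (f x) N 3 (by omega); omega
    have c := f2 x
    refine ⟨by omega, ?_, b⟩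
    by_contra z
    have := Fa 0 (f x) 5 (by omega); omega
  have A : ∀ j, j ≤ k + 1 → W (f (E j)) ≤ E j ∧ Adm n N h (E j - W (f (E j))) := fun j q => by
    unfold Adm
    rw [← hP, ← hw]
    rcases E1 j with a | a
    · rw [a, f4, W0]; omega
    rcases E2 (k + 1 - j) j (by omega) with b | b
    · rw [b, f5]; omega
    have c := f7 _ a b
    have := f6 (E j) (by omega)
    have := Pm 6 _ c.2.1
    have := Pa 0 6
    have := Pm (f (E j) + 1) N (by omega)
    have := Pa (f (E j)) 1
    simp only [zero_add] at *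
    omega
  refine ⟨fun j => f (E j), fun j => E j - W (f (E j)), by simp only [E0, f4], f5,
    fun j q => (A j q).2, fun j q => ?_, fun j q z => by simp only [Es, z, add_zero, and_self],
    fun j q z => ?_⟩
  · have m : f (E j) ≤ f (E (j + 1)) := by
      by_contra z
      have := f3 (E j) (f (E (j + 1))) (by omega)
      have := f2 (E (j + 1)); have := f1 (E j); have := Es j; omega
    have s := sum_Ico_consecutive v (Nat.zero_le _) m
    rw [← range_eq_Ico, ← range_eq_Ico, ← hW, ← hW] at s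
    have := (A j (by omega)).1; have := (A (j + 1) (by omega)).1; have := Es j
    dsimp only; omega
  · dsimp only
    rw [← hP, ← hw]
    have e1 := he j
    have es := Es j
    have b := E2 (k - j) (j + 1) (by omega)
    have up : W (f (E j)) + P (f (E j)) < E j + 4 * n := by
      by_cases y : E j = 0
      · rw [y, f4]; omega
      · exact f6 _ (by omega)
    have g6 : E (j + 1) ≠ E (k + 1) → f (E j) + 6 ≤ f (E (j + 1)) := fun y => by
      have := f7 (E (j + 1)) (by omega) (by omega)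
      by_contra z
      have := Fa (f (E j)) (f (E (j + 1))) 5 (by omega); omega
    refine ⟨?_, f1 _, fun a a1 a2 => ⟨?_, ?_⟩⟩
    · by_cases y : E (j + 1) = E (k + 1)
      · rw [y, f5]
        by_contra z
        have := Fa (f (E j)) N 3 (by omega); omega
      · have := g6 y; omega
    · by_cases y : E j = 0
      · left; omega
      · have c := f7 (E j) (by have := E1 j; omega) (by omega)
        have := f6 (E j) (by omega)
        have := Pm 6 _ c.2.1
        have := Pa 0 6
        have := Pm (f (E j) + 1) a a1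
        have := Pa (f (E j)) 1
        have : h * (4 * a + 2) = P a + 2 * h := by rw [hP]; ring
        simp only [zero_add] at *
        right; omega
    · by_cases y : E (j + 1) = E (k + 1)
      · left; rw [y, f5]; omega
      · have c := f7 (E (j + 1)) (by omega) (by omega)
        have := f6 (E (j + 1)) (by omega)
        have := Pm (a + 4) (f (E (j + 1))) (by have := g6 y; omega)
        have := Pa a 4
        have := Pm (f (E (j + 1)) + 1) N (by omega)
        have := Pa (f (E (j + 1))) 1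
        have : h * (4 * a + 2 + 5) = P a + 7 * h := by rw [hP]; ring
        right; omega

end Pool.Agent.MP_3c4208_co.U
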