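import Mathlib
import Pool.Agent.MP_3c4208_co.U.Cnt

/-! The geodesic tracks between the letters. -/

set_option autoImplicit false
set_option linter.unusedVariables false

namespace Pool.Agent.MP_3c4208_co.U

/-- One on the two inner columns (or rows) of a block of four, zero on the outer ones. -/
def f0 (x : ℕ) : ℕ := if x % 4 = 1 ∨ x % 4 = 2 then 1 else 0

theorem f0_spec (x : ℕ) :
    ((x % 4 = 1 ∨ x % 4 = 2) ∧ f0 x = 1) ∨ ((x % 4 = 0 ∨ x % 4 = 3) ∧ f0 x = 0) := by
  unfold f0; split_ifs <;> omega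

/-- Height of the track of kind `R` from the letter in column `X` to the letter in column `Y`. -/
def ht (R : Bool) (X Y x : ℕ) : ℕ :=
  if R = true then (if x < X + 178 then f0 x else min (x - (X + 178)) (Y + 1 - x))
  else if x = X + 1 then 2 else if x < X + 178 then 3 - f0 x else if x < X + 182 then X + 181 - x
  else if x < X + 358 then f0 x else if x + 3 ≤ Y then min (x - (X + 358)) (Y - 3 - x) else f0 x

theorem ht_T (X Y x : ℕ) (h2 : x < Y) :
    (x < X + 178 ∧ ht true X Y x = f0 x) ∨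
    (X + 178 ≤ x ∧ ht true X Y x + X + 178 = x ∧ ht true X Y x + x ≤ Y + 1) ∨
    (X + 178 ≤ x ∧ ht true X Y x + X + 178 ≤ x ∧ ht true X Y x + x = Y + 1) := by
  unfold ht; simp only [if_true]; split_ifs <;> omega

theorem ht_F (X Y x : ℕ) (h1 : X < x) :
    (x = X + 1 ∧ ht false X Y x = 2) ∨
    (X + 1 < x ∧ x < X + 178 ∧ ht false X Y x + f0 x = 3) ∨
    (X + 178 ≤ x ∧ x < X + 182 ∧ ht false X Y x + x = X + 181) ∨
    (X + 182 ≤ x ∧ x < X + 358 ∧ ht false X Y x = f0 x) ∨
    (X + 358 ≤ x ∧ ht false X Y x + X + 358 = x ∧ ht false X Y x + x + 3 ≤ Y) ∨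
    (X + 358 ≤ x ∧ ht false X Y x + X + 358 ≤ x ∧ ht false X Y x + x + 3 = Y) ∨
    (X + 358 ≤ x ∧ Y < x + 3 ∧ ht false X Y x = f0 x) := by
  have := f0_spec x
  unfold ht; simp only [Bool.false_eq_true, if_false]; split_ifs <;> omega

theorem ht_lip (R : Bool) (X Y x : ℕ) (hX : X % 4 = 2) (hY : Y % 4 = 2) (hXY : X + 364 ≤ Y)
    (h1 : X < x) (h2 : x + 1 < Y) :
    ht R X Y x ≤ ht R X Y (x + 1) + 1 ∧ ht R X Y (x + 1) ≤ ht R X Y x + 1 := by
  have a := f0_spec x
  have b := f0_spec (x + 1)
  cases R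
  · have c := ht_F X Y x h1
    have d := ht_F X Y (x + 1) (by omega)
    omega
  · have c := ht_T X Y x (by omega)
    have d := ht_T X Y (x + 1) h2
    omega

theorem ht_first (R : Bool) (X Y : ℕ) (hXY : X + 364 ≤ Y) : ht R X Y (X + 1) ≤ 2 := by
  have a := f0_spec (X + 1)
  cases R
  · have c := ht_F X Y (X + 1) (by omega); omega
  · have c := ht_T X Y (X + 1) (by omega); omega

theorem ht_last (R : Bool) (X Y x : ℕ) (hXY : X + 364 ≤ Y) (hx : x + 1 = Y) : ht R X Y x ≤ 2 := by
  have a := f0_spec x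
  cases R
  · have c := ht_F X Y x (by omega); omega
  · have c := ht_T X Y x (by omega); omega

theorem ht_le (R : Bool) (X Y x : ℕ) (h1 : X < x) (h2 : x < Y) (hXY : X + 364 ≤ Y) :
    2 * ht R X Y x + X ≤ Y := by
  have a := f0_spec x
  cases R
  · have c := ht_F X Y x h1; omega
  · have c := ht_T X Y x h2; omega

/-- Colour rule; `s + 91 * i` runs over the lanes of the letters. -/
theorem ht_col (R : Bool) (s I J x : ℕ) (hIJ : I < J) (h1 : 2 + 4 * s + 364 * I < x)
    (h2 : x < 2 + 4 * s + 364 * J) :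
    (f0 x = f0 (ht R (2 + 4 * s + 364 * I) (2 + 4 * s + 364 * J) x) ∧
      (x % 364 = (2 + 4 * s) % 364 → 2 < ht R (2 + 4 * s + 364 * I) (2 + 4 * s + 364 * J) x)) ∨
    (x % 364 = (3 + 4 * s) % 364 ∧ ht R (2 + 4 * s + 364 * I) (2 + 4 * s + 364 * J) x = 2) := by
  have a := f0_spec x
  have b := f0_spec (ht R (2 + 4 * s + 364 * I) (2 + 4 * s + 364 * J) x)
  cases R
  · have c := ht_F _ (2 + 4 * s + 364 * J) x h1
    rcases c with c | c | c | c | c | c | c <;> omega
  · have c := ht_T (2 + 4 * s + 364 * I) _ x h2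
    rcases c with c | c | c <;> omega

/-- Two tracks through the same cell have the same kind and share an end. -/
theorem ht_inj (R R' : Bool) (s I J I' J' x : ℕ) (hIJ : I < J) (hIJ' : I' < J')
    (h1 : 2 + 4 * s + 364 * I < x) (h2 : x < 2 + 4 * s + 364 * J)
    (h1' : 2 + 4 * s + 364 * I' < x) (h2' : x < 2 + 4 * s + 364 * J')
    (h : ht R (2 + 4 * s + 364 * I) (2 + 4 * s + 364 * J) x =
      ht R' (2 + 4 * s + 364 * I') (2 + 4 * s + 364 * J') x) :
    R = R' ∧ (I = I' ∨ (J = J' ∧ 2 + 4 * s + 364 * I + (if R = true then 178 else 358) ≤ x ∧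
      2 + 4 * s + 364 * I' + (if R = true then 178 else 358) ≤ x)) := by
  have a := f0_spec x
  cases R <;> cases R'
  · have c := ht_F _ (2 + 4 * s + 364 * J) x h1
    have d := ht_F _ (2 + 4 * s + 364 * J') x h1'
    simp only [Bool.false_eq_true, if_false, true_and]
    rcases c with c | c | c | c | c | c | c <;> rcases d with d | d | d | d | d | d | d <;> omega
  · have c := ht_F _ (2 + 4 * s + 364 * J) x h1
    have d := ht_T (2 + 4 * s + 364 * I') _ x h2'
    exfalso
    rcases c with c | c | c | c | c | c | c <;> rcases d with d | d | d <;> omega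
  · have c := ht_F _ (2 + 4 * s + 364 * J') x h1'
    have d := ht_T (2 + 4 * s + 364 * I) _ x h2
    exfalso
    rcases c with c | c | c | c | c | c | c <;> rcases d with d | d | d <;> omega
  · have c := ht_T (2 + 4 * s + 364 * I) _ x h2
    have d := ht_T (2 + 4 * s + 364 * I') _ x h2'
    simp only [if_true, true_and]
    rcases c with c | c | c <;> rcases d with d | d | d <;> omega

/-- In the private zone of kind `R'` of the letter `I'` only its own track is on the floor. -/
theorem ht_zone (R R' : Bool) (s I J I' x : ℕ) (hIJ : I < J)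
    (h1 : 2 + 4 * s + 364 * I < x) (h2 : x < 2 + 4 * s + 364 * J)
    (h3 : s + 91 * I' + (if R' = true then 1 else 46) ≤ x / 4)
    (h4 : x / 4 < s + 91 * I' + (if R' = true then 1 else 46) + 44)
    (h : ht R (2 + 4 * s + 364 * I) (2 + 4 * s + 364 * J) x < 2) : R = R' ∧ I = I' := by
  have a := f0_spec x
  cases R <;> cases R' <;> simp only [Bool.false_eq_true, if_false, if_true, true_and,
    Bool.true_eq_false, false_and] at h3 h4 ⊢
  · have c := ht_F _ (2 + 4 * s + 364 * J) x h1
    rcases c with c | c | c | c | c | c | c <;> omega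
  · have c := ht_F _ (2 + 4 * s + 364 * J) x h1
    rcases c with c | c | c | c | c | c | c <;> omega
  · have c := ht_T (2 + 4 * s + 364 * I) _ x h2
    rcases c with c | c | c <;> omega
  · have c := ht_T (2 + 4 * s + 364 * I) _ x h2
    rcases c with c | c | c <;> omega

theorem ht_own (R : Bool) (s I J x : ℕ) (hIJ : I < J)
    (h3 : s + 91 * I + (if R = true then 1 else 46) ≤ x / 4 + 1)
    (h4 : x / 4 ≤ s + 91 * I + (if R = true then 1 else 46) + 44)
    (h5 : x / 4 + 1 = s + 91 * I + (if R = true then 1 else 46) → x % 4 = 3)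
    (h6 : x / 4 = s + 91 * I + (if R = true then 1 else 46) + 44 → x % 4 = 0) :
    ht R (2 + 4 * s + 364 * I) (2 + 4 * s + 364 * J) x = f0 x := by
  have a := f0_spec x
  cases R <;> simp only [Bool.false_eq_true, if_false, if_true] at h3 h4 h5 h6
  · have c := ht_F (2 + 4 * s + 364 * I) (2 + 4 * s + 364 * J) x (by omega)
    rcases c with c | c | c | c | c | c | c <;> omega
  · have c := ht_T (2 + 4 * s + 364 * I) (2 + 4 * s + 364 * J) x (by omega)
    rcases c with c | c | c <;> omega

end Pool.Agent.MP_3c4208_co.U
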