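import Mathlib
import Pool.Agent.MP_3c4208_co.U.Track

/-! The lower region: tracks, rivers, private lanes; the partition of its cells. -/

set_option autoImplicit false
set_option linter.unusedSectionVars false
set_option linter.unusedVariables false

namespace Pool.Agent.MP_3c4208_co.U

/-- Data of a word: board size, number of letters, gaps `0 .. k` with kind, left and right letter,
last column, and the set of large gaps. -/
structure Dat where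
  n : ℕ
  r : ℕ
  k : ℕ
  s : ℕ
  R : ℕ → Bool
  I : ℕ → ℕ
  J : ℕ → ℕ
  b : ℕ → ℕ
  lg : ℕ → Prop

namespace Dat

variable (D : Dat)

/-- Number of lanes. -/
def N : ℕ := (D.n - 2) / 4
/-- Height of the zone of the tents. -/
def H1 : ℕ := 4 * ((D.n + 9) / 10)
/-- Height of the lower region. -/
def H2 : ℕ := D.H1 + 4 * (D.r + 2)
/-- Left letter column. -/
def X (j : ℕ) : ℕ := 2 + 4 * D.s + 364 * D.I j
/-- Right letter column. -/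
def Y (j : ℕ) : ℕ := 2 + 4 * D.s + 364 * D.J j
/-- First private lane. -/
def z (j : ℕ) : ℕ := D.s + 91 * D.I j + (if D.R j = true then 1 else 46)
/-- Height of the track. -/
def h (j x : ℕ) : ℕ := ht (D.R j) (D.X j) (D.Y j) x
/-- Track cells. -/
def Tk (j : ℕ) (c : Cl) : Prop := j ≤ D.k ∧ D.X j < c.1 ∧ c.1 ≤ D.b j ∧ c.2 = D.h j c.1
/-- The track covers its whole private zone. -/
def dev (j : ℕ) : Prop := j ≤ D.k ∧ 4 * (D.z j + 44) ≤ D.b j + 1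
/-- Private lanes. -/
def Pv (j l : ℕ) : Prop := D.dev j ∧ D.z j ≤ l ∧ l < D.z j + 44
/-- Letter cells. -/
def Lt (c : Cl) : Prop := ∃ i, i < D.r ∧ c = (2 + 4 * D.s + 364 * i, 1)
/-- Cells occupied by letters and by tracks outside their private lanes. -/
def O (c : Cl) : Prop := D.Lt c ∨ ∃ j, D.Tk j c ∧ ¬ D.Pv j (c.1 / 4)
/-- Lowest row of a river. -/
def bb (j : ℕ) : ℕ := D.H1 + 2 + 4 * j
/-- River cells. -/
def Rv (t : ℕ) (c : Cl) : Prop :=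
  D.lg t ∧ c.1 < 4 * D.N ∧ (c.2 + f0 c.1 = D.bb t + 1 ∨ c.2 = D.bb t + 2 + f0 c.1)
/-- Port lanes. -/
def Pt (j l : ℕ) : Prop := D.lg j ∧ l = D.z j + 8

/-- Validity of the data. -/
structure OK : Prop where
  hn : 1000 * D.r ≤ D.n
  hr : 1 ≤ D.r
  hs : D.s ≤ 1
  hk : D.k ≤ D.r
  hI : ∀ j, j ≤ D.k → D.I j < D.J j ∧ D.J j ≤ D.r
  hb : ∀ j, j ≤ D.k → D.b j + 1 = D.Y j ∨ (D.X j ≤ D.b j ∧ D.b j < 4 * (D.z j + 44))
  hII : ∀ j j', j ≤ D.k → j' ≤ D.k → D.R j = D.R j' → D.I j = D.I j' → j = j'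
  hJJ : ∀ j j', j ≤ D.k → j' ≤ D.k → D.R j = D.R j' → D.J j = D.J j' → D.b j + 1 = D.Y j →
    D.b j' + 1 = D.Y j' → j = j'
  hlg : ∀ j, D.lg j → D.dev j

/-- Cells that no track, river or letter uses. -/
def Vc (c : Cl) : Prop :=
  (f0 c.1 ≠ f0 c.2 ∧ ¬ (c.1 % 364 = (3 + 4 * D.s) % 364 ∧ c.2 = 2)) ∨
    (c.1 % 364 = (2 + 4 * D.s) % 364 ∧ c.2 = 2)

theorem Vc_row (x y : ℕ) (hx : x % 2 = 0) : D.Vc (x, y) ∨ D.Vc (x + 1, y) := by
  have a := f0_spec x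
  have b := f0_spec (x + 1)
  have c := f0_spec y
  unfold Vc; dsimp only; omega

theorem Vc_in (x y : ℕ) (hx : x % 4 = 1 ∨ x % 4 = 2) (hy : y % 4 = 0 ∨ y % 4 = 3) : D.Vc (x, y) := by
  have a := f0_spec x
  have c := f0_spec y
  unfold Vc; dsimp only; omega

theorem z_eq (j : ℕ) : 4 * (D.z j + 44) = D.X j + (if D.R j = true then 178 else 358) := by
  unfold z X; split_ifs <;> omega

theorem z_bd (j : ℕ) : D.X j + 2 ≤ 4 * D.z j ∧ 4 * D.z j ≤ D.X j + 182 := by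
  unfold z X; split_ifs <;> omega

variable {D} (H : D.OK)
include H

theorem OK.num : 4 * D.N + 2 ≤ D.n ∧ D.n ≤ 4 * D.N + 5 ∧ 2 * D.H2 ≤ D.n ∧ 2 * D.n ≤ 5 * D.H1 ∧
    D.H1 % 4 = 0 ∧ D.H2 = D.H1 + 4 * D.r + 8 ∧ 1000 ≤ D.n := by
  have := H.hn; have := H.hr
  unfold N H2 H1; omega

theorem OK.XY {j : ℕ} (hj : j ≤ D.k) : D.X j % 4 = 2 ∧ D.Y j % 4 = 2 ∧ D.X j + 364 ≤ D.Y j ∧
    D.X j ≤ D.b j ∧ D.b j < D.Y j ∧ 2 * D.Y j + 12 ≤ D.n ∧ D.Y j ≤ D.H1 := by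
  have a := H.hI j hj
  have b := H.hb j hj
  have c := D.z_bd j
  have := H.hn; have := H.hr; have := H.hs; have := H.num
  unfold X Y at *; omega

theorem OK.Tk_bd {j : ℕ} {c : Cl} (h : D.Tk j c) : 2 * c.2 ≤ D.H1 ∧ 2 * c.1 + 12 ≤ D.n := by
  obtain ⟨h1, h2, h3, h4⟩ := h
  have a := H.XY h1
  have b := ht_le (D.R j) (D.X j) (D.Y j) c.1 h2 (by omega) a.2.2.1
  unfold Dat.h at h4; omega

theorem OK.Tk_col {j : ℕ} {c : Cl} (h : D.Tk j c) :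
    (f0 c.1 = f0 c.2 ∧ (c.1 % 364 = (2 + 4 * D.s) % 364 → 2 < c.2)) ∨
      (c.1 % 364 = (3 + 4 * D.s) % 364 ∧ c.2 = 2) := by
  obtain ⟨h1, h2, h3, h4⟩ := h
  have a := H.XY h1
  rw [h4]
  exact ht_col (D.R j) D.s (D.I j) (D.J j) c.1 (H.hI j h1).1 h2 (lt_of_le_of_lt h3 a.2.2.2.2.1)

theorem OK.Tk_Lt {j : ℕ} {c : Cl} (h : D.Tk j c) : ¬ D.Lt c := by
  rintro ⟨i, _, rfl⟩
  have := H.Tk_col h
  dsimp only at this; omega

theorem OK.Tk_inj {j j' : ℕ} {c : Cl} (h : D.Tk j c) (h' : D.Tk j' c) : j = j' := by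
  obtain ⟨h1, h2, h3, h4⟩ := h
  obtain ⟨g1, g2, g3, g4⟩ := h'
  have a := H.XY h1
  have a' := H.XY g1
  obtain ⟨e, f | ⟨f, f1, f2⟩⟩ := ht_inj (D.R j) (D.R j') D.s (D.I j) (D.J j) (D.I j') (D.J j') c.1
    (H.hI j h1).1 (H.hI j' g1).1 h2 (lt_of_le_of_lt h3 a.2.2.2.2.1) g2
    (lt_of_le_of_lt g3 a'.2.2.2.2.1) (h4.symm.trans g4)
  · exact H.hII j j' h1 g1 e f
  · have p := D.z_eq j
    have q := D.z_eq j'
    rw [← e] at q
    have u := H.hb j h1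
    have v := H.hb j' g1
    unfold X at p q
    exact H.hJJ j j' h1 g1 e f (by omega) (by omega)

theorem OK.Pv_inj {j j' l : ℕ} (h : D.Pv j l) (h' : D.Pv j' l) : j = j' := by
  obtain ⟨⟨h1, _⟩, h2, h3⟩ := h
  obtain ⟨⟨g1, _⟩, g2, g3⟩ := h'
  unfold z at *
  refine H.hII j j' h1 g1 ?_ ?_ <;> cases e : D.R j <;> cases e' : D.R j' <;>
    simp only [e, e', if_true, if_false, Bool.false_eq_true, Bool.true_eq_false] at * <;> omega

theorem OK.Pv_bd {j l : ℕ} (h : D.Pv j l) : D.X j + 2 ≤ 4 * l ∧ 4 * l + 3 ≤ D.b j ∧ l + 1 < D.N := by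
  obtain ⟨⟨h1, h0⟩, h2, h3⟩ := h
  have := D.z_bd j
  have := H.XY h1
  have := H.num
  omega

theorem OK.Pt_Pv {j l : ℕ} (h : D.Pt j l) : D.Pv j l :=
  ⟨H.hlg j h.1, by rw [h.2]; omega, by rw [h.2]; omega⟩

theorem OK.O_bd {c : Cl} (h : D.O c) : 2 * c.2 ≤ D.H1 ∧ 2 * c.1 + 12 ≤ D.n := by
  rcases h with ⟨i, hi, rfl⟩ | ⟨j, h, _⟩
  · have := H.num; have := H.hn; have := H.hs; dsimp only; omega
  · exact H.Tk_bd h

theorem OK.O_Vc {c : Cl} (h : D.Vc c) : ¬ D.O c := by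
  have a := f0_spec c.1
  have b := f0_spec c.2
  unfold Vc at h
  rintro (⟨i, hi, rfl⟩ | ⟨j, g, _⟩)
  · dsimp only at *; omega
  · have := H.Tk_col g; omega

theorem OK.O_Pv {j : ℕ} {c : Cl} (h : D.Pv j (c.1 / 4)) (hc : c.2 < 2) : ¬ D.O c := by
  rintro (⟨i, hi, rfl⟩ | ⟨j', ⟨g1, g2, g3, g4⟩, g⟩)
  · obtain ⟨_, h2, h3⟩ := h
    unfold z at h2 h3; dsimp only at h2 h3
    split_ifs at h2 h3 <;> omega
  · have a := H.XY g1
    obtain ⟨e, f⟩ := ht_zone (D.R j') (D.R j) D.s (D.I j') (D.J j') (D.I j) c.1 (H.hI j' g1).1 g2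
      (lt_of_le_of_lt g3 a.2.2.2.2.1) h.2.1 h.2.2 (lt_of_eq_of_lt g4.symm hc)
    exact g (H.hII j' j g1 h.1.1 e f ▸ h)

theorem OK.Rv_bd {t : ℕ} {c : Cl} (h : D.Rv t c) :
    D.bb t ≤ c.2 ∧ c.2 ≤ D.bb t + 3 ∧ D.H1 + 2 ≤ D.bb t ∧ D.bb t + 6 ≤ D.H2 := by
  have a := f0_spec c.1
  have b := (H.hlg t h.1).1
  have := H.hk; have := H.num
  obtain ⟨_, _, h⟩ := h
  unfold bb at *; omega

theorem OK.Rv_inj {t t' : ℕ} {c : Cl} (h : D.Rv t c) (h' : D.Rv t' c) : t = t' := by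
  have a := H.Rv_bd h
  have b := H.Rv_bd h'
  unfold bb at *; omega

theorem OK.Rv_Vc {t : ℕ} {c : Cl} (h : D.Vc c) : ¬ D.Rv t c := by
  have a := f0_spec c.1
  have b := f0_spec c.2
  have := H.num
  rintro ⟨_, _, g⟩
  unfold Vc at h; unfold bb at g; omega

theorem OK.h_own {j x : ℕ} (hj : j ≤ D.k) (h3 : 4 * D.z j ≤ x + 1) (h4 : x ≤ 4 * (D.z j + 44)) :
    D.h j x = f0 x :=
  ht_own (D.R j) D.s (D.I j) (D.J j) x (H.hI j hj).1 (by change D.z j ≤ _; omega)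
    (by change _ ≤ D.z j + 44; omega) (by change _ = D.z j → _; omega)
    (by change _ = D.z j + 44 → _; omega)

end Dat

/-- Lane data: lowest row left to the owner of the lane, and number of extra cells of a fine lane. -/
structure Lan where
  y : ℕ → ℕ
  f : ℕ → ℕ

namespace Dat

variable (D : Dat) (L : Lan)

/-- Cells of the piece of a fine lane. -/
def Fn (L : Lan) (c : Cl) : Prop := L.y (c.1 / 4) = 1 ∧
  (c.2 = 0 ∨ (c.2 = 1 ∧ ((c.1 % 4 = 0 ∧ 1 ≤ L.f (c.1 / 4)) ∨ (c.1 % 4 = 3 ∧ 2 ≤ L.f (c.1 / 4)))))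
/-- Cells free for the strands of gap `t`. -/
def Fr (t : ℕ) (c : Cl) : Prop := ¬ D.O c ∧ ¬ Fn L c ∧ ∀ t', D.Rv t' c → t' = t
/-- Bottom piece of a private lane. -/
def Bt (j : ℕ) (c : Cl) : Prop :=
  Fn L c ∨ (L.y (c.1 / 4) ≠ 1 ∧ c.2 < L.y (c.1 / 4) ∧ D.Fr L j c)
/-- Base part of a gap. -/
def Bs (j : ℕ) (c : Cl) : Prop :=
  (D.Tk j c ∧ ¬ D.Pv j (c.1 / 4)) ∨ (D.Pv j (c.1 / 4) ∧ D.Bt L j c)
/-- Mandatory part of a gap. -/
def M (j : ℕ) (c : Cl) : Prop := D.Bs L j c ∨ D.Rv j c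
/-- Cells left to the owners of the lanes. -/
def V (c : Cl) : Prop := c.1 < 4 * D.N ∧ L.y (c.1 / 4) ≤ c.2 ∧ c.2 < D.H2 ∧ ¬ D.O c ∧ ¬ Fn L c ∧
  ∀ t, ¬ D.Rv t c

/-- Validity of the lane data. -/
structure LOK : Prop where
  y0 : ∀ l, (∀ j, ¬ D.Pv j l) → L.y l = 0
  yp : ∀ j l, D.Pt j l → L.y l = D.bb j + 2
  y1 : ∀ j l, D.Pv j l → ¬ D.Pt j l → L.y l = 1 ∨ (L.y l % 4 = 0 ∧ 4 ≤ L.y l ∧ L.y l ≤ D.H1)

variable {D L} (H : D.OK) (G : D.LOK L)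
include H G

theorem y_Pv {l : ℕ} (h : L.y l ≠ 0) : ∃ j, D.Pv j l := by
  by_contra a
  exact h (G.y0 l fun j b => a ⟨j, b⟩)

theorem y_np {l : ℕ} (h : ∀ j, ¬ D.Pt j l) :
    L.y l = 1 ∨ (L.y l % 4 = 0 ∧ L.y l ≤ D.H1) := by
  by_cases a : L.y l = 0
  · omega
  · obtain ⟨j, hj⟩ := y_Pv H G a
    have := G.y1 j l hj (h j); omega

theorem y_le (l : ℕ) : L.y l + 4 ≤ D.H2 := by
  have := H.num
  by_cases a : ∃ j, D.Pt j l
  · obtain ⟨j, hj⟩ := a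
    have := G.yp j l hj
    have := (H.hlg j hj.1).1
    have := H.hk
    unfold bb at *; omega
  · have := y_np H G (l := l) (fun j b => a ⟨j, b⟩); omega

theorem Bs_bd {j : ℕ} {c : Cl} (h : D.Bs L j c) :
    j ≤ D.k ∧ D.X j < c.1 ∧ c.1 ≤ D.b j ∧ c.1 < 4 * D.N ∧ c.2 < D.H2 := by
  have := H.num
  rcases h with ⟨h, _⟩ | ⟨h, g⟩
  · have := H.Tk_bd h
    exact ⟨h.1, h.2.1, h.2.2.1, by omega, by omega⟩
  · have := H.Pv_bd h
    have := y_le H G (c.1 / 4)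
    refine ⟨h.1.1, by omega, by omega, by omega, ?_⟩
    rcases g with g | g
    · unfold Fn at g; omega
    · omega

theorem M_bd {j : ℕ} {c : Cl} (h : D.M L j c) : j ≤ D.k ∧ c.1 < 4 * D.N ∧ c.2 < D.H2 := by
  rcases h with h | h
  · have := Bs_bd H G h; omega
  · have := H.Rv_bd h
    exact ⟨(H.hlg j h.1).1, h.2.1, by omega⟩

theorem Bt_O {j : ℕ} {c : Cl} (h : D.Pv j (c.1 / 4)) (g : D.Bt L j c) : ¬ D.O c := by
  rcases g with g | g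
  · exact H.O_Pv h (by unfold Fn at g; omega)
  · exact g.2.2.1

theorem M_Lt {j : ℕ} {c : Cl} (h : D.M L j c) : ¬ D.Lt c := by
  rcases h with (⟨h, _⟩ | ⟨h, g⟩) | h
  · exact H.Tk_Lt h
  · exact fun a => Bt_O H G h g (Or.inl a)
  · intro a
    have := H.O_bd (Or.inl a)
    have := H.Rv_bd h
    omega

theorem M_V {j : ℕ} {c : Cl} (h : D.M L j c) : ¬ D.V L c := by
  rintro ⟨_, v1, _, v2, v3, v4⟩
  rcases h with (h | ⟨h, g | g⟩) | h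
  · exact v2 (Or.inr ⟨j, h⟩)
  · exact v3 g
  · omega
  · exact v4 j h

theorem M_inj {j j' : ℕ} {c : Cl} (h : D.M L j c) (h' : D.M L j' c) : j = j' := by
  have A : ∀ i i', D.Bs L i c → D.Rv i' c → i = i' := by
    rintro i i' (⟨a, _⟩ | ⟨a, b | b⟩) g
    · have := H.Tk_bd a; have := H.Rv_bd g; omega
    · have := H.Rv_bd g; unfold Fn at b; omega
    · exact (b.2.2.2.2 i' g).symm
  rcases h with h | h <;> rcases h' with h' | h'
  · rcases h with h | h <;> rcases h' with h' | h'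
    · exact H.Tk_inj h.1 h'.1
    · exact absurd (Or.inr ⟨j, h⟩) (Bt_O H G h'.1 h'.2)
    · exact absurd (Or.inr ⟨j', h'⟩) (Bt_O H G h.1 h.2)
    · exact H.Pv_inj h.1 h'.1
  · exact A _ _ h h'
  · exact (A _ _ h' h).symm
  · exact H.Rv_inj h h'

theorem cover (c : Cl) (h1 : c.1 < 4 * D.N) (h2 : c.2 < D.H2) :
    D.Lt c ∨ D.V L c ∨ ∃ j, D.M L j c := by
  by_cases a : D.O c
  · rcases a with a | ⟨j, a⟩
    · exact Or.inl a
    · exact Or.inr (Or.inr ⟨j, Or.inl (Or.inl a)⟩)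
  right
  by_cases b : ∃ t, D.Rv t c
  · obtain ⟨t, b⟩ := b
    exact Or.inr ⟨t, Or.inr b⟩
  by_cases d : Fn L c
  · obtain ⟨j, hj⟩ := y_Pv H G (l := c.1 / 4) (by have := d.1; omega)
    exact Or.inr ⟨j, Or.inl (Or.inr ⟨hj, Or.inl d⟩)⟩
  by_cases e : L.y (c.1 / 4) ≤ c.2
  · exact Or.inl ⟨h1, e, h2, a, d, fun t g => b ⟨t, g⟩⟩
  · obtain ⟨j, hj⟩ := y_Pv H G (l := c.1 / 4) (by omega)
    refine Or.inr ⟨j, Or.inl (Or.inr ⟨hj, Or.inr ⟨fun g => d ⟨g, by omega⟩, by omega, a, d,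
      fun t g => absurd ⟨t, g⟩ b⟩⟩)⟩

theorem Fr_Vc (t : ℕ) {c : Cl} (h : D.Vc c) (g : L.y (c.1 / 4) = 1 → 2 ≤ c.2) : D.Fr L t c :=
  ⟨H.O_Vc h, fun a => by have := g a.1; unfold Fn at a; omega, fun _ a => absurd a (H.Rv_Vc h)⟩

theorem Fr_low (t : ℕ) {j : ℕ} {c : Cl} (h : D.Pv j (c.1 / 4)) (hc : c.2 < 2) (g : ¬ Fn L c) :
    D.Fr L t c :=
  ⟨H.O_Pv h hc, g, fun _ a => by have := H.Rv_bd a; omega⟩

theorem Fr_Rv {t : ℕ} {c : Cl} (h : D.Rv t c) : D.Fr L t c := by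
  have := H.Rv_bd h
  exact ⟨fun a => by have := H.O_bd a; omega, fun a => by unfold Fn at a; omega,
    fun _ a => H.Rv_inj a h⟩

theorem Fr_row (t x y : ℕ) (hx : x % 2 = 0) (g : L.y (x / 4) = 1 → 1 ≤ y) :
    D.Fr L t (x, y) ∨ D.Fr L t (x + 1, y) := by
  have e : (x + 1) / 4 = x / 4 := by omega
  by_cases a : L.y (x / 4) = 1 ∧ y = 1
  · obtain ⟨j, hj⟩ := y_Pv H G (l := x / 4) (by omega)
    by_cases b : x % 4 = 0
    · exact Or.inr (Fr_low H G t (j := j) (by dsimp only; rw [e]; exact hj) (by dsimp only; omega)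
        (by unfold Fn; dsimp only; omega))
    · exact Or.inl (Fr_low H G t hj (by dsimp only; omega) (by unfold Fn; dsimp only; omega))
  · rcases D.Vc_row x y hx with b | b
    · exact Or.inl (Fr_Vc H G t b (by dsimp only; omega))
    · exact Or.inr (Fr_Vc H G t b (by dsimp only; rw [e]; omega))

theorem Fr_bot (t x : ℕ) (hx : x % 4 = 1 ∨ x % 4 = 2) (h : ∀ j, ¬ D.Pt j (x / 4)) :
    D.Fr L t (x, L.y (x / 4)) := by
  rcases y_np H G h with a | a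
  · obtain ⟨j, hj⟩ := y_Pv H G (l := x / 4) (by omega)
    exact Fr_low H G t hj (by dsimp only; omega) (by unfold Fn; dsimp only; omega)
  · exact Fr_Vc H G t (D.Vc_in _ _ hx (by omega)) (by dsimp only; omega)

end Dat

end Pool.Agent.MP_3c4208_co.U
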