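import Mathlib
import Pool.Agent.MP_3c4208_co.U.Low1

/-! The paths of the gaps in the lower region. -/

set_option autoImplicit false
set_option linter.unusedSectionVars false
set_option linter.unusedVariables false
set_option linter.unusedSimpArgs false

namespace Pool.Agent.MP_3c4208_co.U

namespace Dat

variable {D : Dat} {L : Lan} (H : D.OK) (G : D.LOK L)
include H G

theorem trk {j a b : ℕ} (hj : j ≤ D.k) (h1 : D.X j < a) (h2 : a ≤ b) (h3 : b ≤ D.b j) :
    HP (fun c => a ≤ c.1 ∧ c.1 ≤ b ∧ c.2 = D.h j c.1) (a, D.h j a) (b, D.h j b) := by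
  have := H.XY hj
  exact track (D.h j) a b h2 fun x p q => ht_lip _ _ _ x (by omega) (by omega) (by omega) (by omega)
    (by omega)

/-- A hairpin open at the bottom. -/
theorem hairU (t l y1 y2 : ℕ) (hy : y1 ≤ y2) (h0 : L.y l = 1 → 2 ≤ y1) (h2 : y2 % 4 = 3)
    (a : D.Fr L t (4 * l, y1)) (b : D.Fr L t (4 * l + 3, y1)) :
    HP (fun c => (c.1 = 4 * l ∨ c.1 = 4 * l + 1) ∧ y1 ≤ c.2 ∧ c.2 ≤ y2 ∧ D.Fr L t c) (4 * l, y1)
      (4 * l + 1, y2) ∧
    HP (fun c => (c.1 = 4 * l + 3 ∨ c.1 = 4 * l + 2) ∧ y1 ≤ c.2 ∧ c.2 ≤ y2 ∧ D.Fr L t c)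
      (4 * l + 2, y2) (4 * l + 3, y1) := by
  have e0 : 4 * l / 4 = l := by omega
  have e1 : (4 * l + 1) / 4 = l := by omega
  have e2 : (4 * l + 2) / 4 = l := by omega
  refine ⟨strip _ _ _ _ _ (by omega) hy (fun y p q => Fr_row H G t _ y (by omega) (by rw [e0]; omega))
    a (Fr_Vc H G t (D.Vc_in _ _ (by omega) (by omega)) (by dsimp only; omega)),
    (strip _ _ _ _ _ (by omega) hy (fun y p q => (Fr_row H G t (4 * l + 2) y (by omega)
      (by rw [e2]; omega)).symm) b
      (Fr_Vc H G t (D.Vc_in _ _ (by omega) (by omega)) (by dsimp only; omega))).symm⟩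

theorem bot {j l : ℕ} (h : D.Pv j l) (hp : ¬ D.Pt j l) :
    HP (fun c => c.1 / 4 = l ∧ D.Bt L j c) (4 * l, 0) (4 * l + 3, 0) := by
  rcases G.y1 j l h hp with a | a
  · have B := band (fun _ => 0) (fun x => if (x % 4 = 0 ∧ 1 ≤ L.f l) ∨ (x % 4 = 3 ∧ 2 ≤ L.f l) then 1 else 0)
      0 (4 * l) (4 * l + 3) (by omega) (fun _ _ _ => by omega)
      (fun _ _ _ _ => by split_ifs <;> omega) (fun _ _ _ _ => by omega) (by omega)
    rw [if_pos (by omega), if_neg (by omega)] at B
    refine B.congr fun c => ?_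
    by_cases e : c.1 / 4 = l
    · simp only [Bt, Fn, e, a, ne_eq, not_true, false_and, or_false, true_and]
      split_ifs <;> omega
    · simp only [e, false_and, iff_false]; omega
  · have F : ∀ x, x / 4 = l → D.Fr L j (x, 0) := fun x hx =>
      Fr_low H G j (j := j) (by dsimp only; rw [hx]; exact h) (by dsimp only; omega)
        (by unfold Fn; dsimp only; rw [hx]; omega)
    obtain ⟨A, B⟩ := hairU H G j l 0 (L.y l - 1) (by omega) (by omega) (by omega) (F _ (by omega))
      (F _ (by omega))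
    refine (A.app B (by unfold Nr; dsimp only; omega) (fun x p q => by omega)).congr fun c => ?_
    by_cases e : c.1 / 4 = l
    · have : L.y l ≠ 1 := by omega
      simp only [Bt, Fn, e, this, ne_eq, not_false_eq_true, false_and, false_or, true_and]
      by_cases g : D.Fr L j c <;> simp only [g, and_true, and_false, or_self] ; omega
    · simp only [e, false_and, iff_false]; omega

theorem bots {j l1 l2 : ℕ} (hd : D.dev j) (h1 : D.z j ≤ l1) (h2 : l1 ≤ l2) (h3 : l2 < D.z j + 44)
    (hp : ∀ l, l1 ≤ l → l ≤ l2 → ¬ D.Pt j l) :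
    HP (fun c => l1 ≤ c.1 / 4 ∧ c.1 / 4 ≤ l2 ∧ D.Bt L j c) (4 * l1, 0) (4 * l2 + 3, 0) :=
  (HP.chain (fun c => c.1 / 4) (fun l c => c.1 / 4 = l ∧ D.Bt L j c) (fun l => (4 * l, 0))
    (fun l => (4 * l + 3, 0)) l1 l2 h2
    (fun l p q => bot H G ⟨hd, by omega, by omega⟩ (hp l p q))
    (fun l _ _ => by unfold Nr; dsimp only; omega) (fun _ _ _ _ h => h.1)).congr fun c => by simp

theorem baseL {j l : ℕ} (hd : D.dev j) (h1 : D.z j ≤ l) (h3 : l < D.z j + 44)
    (hp : ∀ l', l' ≤ l → ¬ D.Pt j l') :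
    HP (fun c => D.Bs L j c ∧ c.1 / 4 ≤ l) (D.X j + 1, D.h j (D.X j + 1)) (4 * l + 3, 0) := by
  have zb := D.z_bd j
  have d2 := hd.2
  have A := trk H G (a := D.X j + 1) (b := 4 * D.z j - 1) hd.1 (by omega) (by omega) (by omega)
  have e := H.h_own (x := 4 * D.z j - 1) hd.1 (by omega) (by omega)
  have f := f0_spec (4 * D.z j - 1)
  refine (A.app (bots H G hd le_rfl h1 h3 fun l' _ q => hp l' q) (by unfold Nr; dsimp only; omega)
    (fun x p q => by omega)).congr fun c => ?_
  simp only [Bs, Tk, Pv, hd, hd.1, true_and]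
  by_cases g : D.Bt L j c <;> simp only [g, and_true, and_false, or_false] <;> omega

theorem baseR {j l : ℕ} (hd : D.dev j) (h1 : D.z j ≤ l) (h3 : l < D.z j + 44)
    (hp : ∀ l', l ≤ l' → ¬ D.Pt j l') :
    HP (fun c => D.Bs L j c ∧ l ≤ c.1 / 4) (4 * l, 0) (D.b j, D.h j (D.b j)) := by
  have zb := D.z_bd j
  have d2 := hd.2
  have B := bots H G (l2 := D.z j + 43) hd h1 (by omega) (by omega) fun l' q _ => hp l' q
  by_cases hb : 4 * (D.z j + 44) = D.b j + 1
  · have e := H.h_own (x := D.b j) hd.1 (by omega) (by omega)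
    have f := f0_spec (D.b j)
    rw [show D.h j (D.b j) = 0 by omega, show D.b j = 4 * (D.z j + 43) + 3 by omega]
    refine B.congr fun c => ?_
    simp only [Bs, Tk, Pv, hd, hd.1, true_and]
    by_cases g : D.Bt L j c <;> simp only [g, and_true, and_false, or_false, false_iff] <;> omega
  · have A := trk H G (a := 4 * (D.z j + 44)) (b := D.b j) hd.1 (by omega) (by omega) le_rfl
    have e := H.h_own (x := 4 * (D.z j + 44)) hd.1 (by omega) (by omega)
    have f := f0_spec (4 * (D.z j + 44))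
    refine (B.app A (by unfold Nr; dsimp only; omega) (fun x p q => by omega)).congr fun c => ?_
    simp only [Bs, Tk, Pv, hd, hd.1, true_and]
    by_cases g : D.Bt L j c <;> simp only [g, and_true, and_false, false_or, or_false] <;> omega

/-- The path of a small gap. -/
theorem small {j : ℕ} (hj : j ≤ D.k) (hl : ¬ D.lg j) (hb : D.X j < D.b j) :
    HP (D.M L j) (D.X j + 1, D.h j (D.X j + 1)) (D.b j, D.h j (D.b j)) := by
  have E : ∀ c, D.Bs L j c ↔ D.M L j c := fun c => ⟨Or.inl, fun h => h.elim id fun a => absurd a.1 hl⟩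
  refine HP.congr ?_ E
  by_cases hd : D.dev j
  · refine ((baseL H G hd le_rfl (by omega) fun _ _ a => hl a.1).app
      (baseR H G (l := D.z j + 1) hd (by omega) (by omega) fun _ _ a => hl a.1)
      (by unfold Nr; dsimp only; omega) (fun x p q => by omega)).congr fun c => ?_
    by_cases g : D.Bs L j c <;> simp only [g, true_and, false_and, or_self, iff_true]
    omega
  · refine (trk H G (a := D.X j + 1) hj (by omega) (by omega) le_rfl).congr fun c => ?_
    simp only [Bs, Tk, Pv, hd, hj, true_and, false_and, or_false, not_false_eq_true, and_true]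
    omega

variable {own : ℕ → ℕ} (ho : ∀ j l, D.Pt j l → own l = j)
include ho

/-- Lower track of a river with its hairpins. -/
def Lo (D : Dat) (L : Lan) (own : ℕ → ℕ) (t : ℕ) (c : Cl) : Prop :=
  (own (c.1 / 4) = t ∧ L.y (c.1 / 4) ≤ c.2 ∧ c.2 ≤ D.bb t + 1 ∧ D.Fr L t c) ∨
    (own (c.1 / 4) ≠ t ∧ c.2 + f0 c.1 = D.bb t + 1)

/-- Upper track of a river with its hairpins. -/
def Up (D : Dat) (L : Lan) (own : ℕ → ℕ) (t : ℕ) (c : Cl) : Prop :=
  (own (c.1 / 4) = t ∧ D.bb t + 2 ≤ c.2 ∧ c.2 < D.H2 ∧ D.Fr L t c) ∨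
    (own (c.1 / 4) ≠ t ∧ c.2 = D.bb t + 2 + f0 c.1)

theorem Fr_out {t x y : ℕ} (ht : D.lg t) (hx : x < 4 * D.N) (h4 : x % 4 = 0 ∨ x % 4 = 3)
    (hy : y = D.bb t + 1 ∨ y = D.bb t + 2) : D.Fr L t (x, y) :=
  Fr_Rv H G ⟨ht, hx, by have := f0_spec x; dsimp only; omega⟩

theorem lowP {t l : ℕ} (ht : D.lg t) (hl : l < D.N) (hp : l ≠ D.z t + 8) :
    HP (fun c => c.1 / 4 = l ∧ Lo D L own t c) (4 * l, D.bb t + 1) (4 * l + 3, D.bb t + 1) := by
  by_cases a : own l = t
  · have np : ∀ j, ¬ D.Pt j l := fun j b => hp (by have := ho j l b; rw [← a, this]; exact b.2)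
    have yb := y_np H G np
    have := H.num
    have e0 : 4 * l / 4 = l := by omega
    have e1 : (4 * l + 1) / 4 = l := by omega
    have e2 : (4 * l + 2) / 4 = l := by omega
    have hy : L.y l ≤ D.bb t + 1 := by unfold bb; omega
    have F1 := Fr_bot H G t (4 * l + 1) (by omega) (by rw [e1]; exact np)
    have F2 := Fr_bot H G t (4 * l + 2) (by omega) (by rw [e2]; exact np)
    rw [e1] at F1; rw [e2] at F2
    have A := (strip (D.Fr L t) (4 * l + 1) (4 * l) _ _ (by omega) hy
      (fun y p q => (Fr_row H G t (4 * l) y (by omega) (by rw [e0]; omega)).symm) F1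
      (Fr_out H G ho ht (by omega) (by omega) (by omega))).symm
    have B := strip (D.Fr L t) (4 * l + 2) (4 * l + 3) _ _ (by omega) hy
      (fun y p q => Fr_row H G t (4 * l + 2) y (by omega) (by rw [e2]; omega)) F2
      (Fr_out H G ho ht (by omega) (by omega) (by omega))
    refine (A.app B (by unfold Nr; dsimp only; omega) (fun x p q => by omega)).congr fun c => ?_
    by_cases e : c.1 / 4 = l
    · simp only [Lo, e, a, ne_eq, not_true, false_and, or_false, true_and]
      by_cases g : D.Fr L t c <;> simp only [g, and_true, and_false, or_self] ; omega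
    · simp only [e, false_and, iff_false]; omega
  · have A := track (fun x => D.bb t + 1 - f0 x) (4 * l) (4 * l + 3) (by omega) fun x _ _ => by
      have := f0_spec x; have := f0_spec (x + 1); omega
    have p := f0_spec (4 * l)
    have q := f0_spec (4 * l + 3)
    rw [show D.bb t + 1 - f0 (4 * l) = D.bb t + 1 by omega,
      show D.bb t + 1 - f0 (4 * l + 3) = D.bb t + 1 by omega] at A
    refine A.congr fun c => ?_
    have := f0_spec c.1
    by_cases e : c.1 / 4 = l
    · simp only [Lo, e, a, ne_eq, not_false_eq_true, false_and, false_or, true_and]; omega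
    · simp only [e, false_and, iff_false]; omega

theorem uppP {t l a : ℕ} (ht : D.lg t) (hl : l < D.N) (ha : own a = t) {U : Cl → Prop}
    (hU : HP U (4 * a + 2, D.H2) (4 * a + 3, D.H2)) (hU' : ∀ c, U c → D.H2 ≤ c.2 ∨ 4 * D.N ≤ c.1) :
    HP (fun c => (c.1 / 4 = l ∧ Up D L own t c) ∨ (l = a ∧ U c)) (4 * l, D.bb t + 2)
      (4 * l + 3, D.bb t + 2) := by
  have nm := H.num
  have tk := (H.hlg t ht).1
  have := H.hk
  have hb : D.bb t + 6 ≤ D.H2 ∧ 2 ≤ D.bb t := by unfold bb; omega
  by_cases o : own l = t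
  · obtain ⟨A, B⟩ := hairU H G t l (D.bb t + 2) (D.H2 - 1) (by omega) (by omega) (by omega)
      (Fr_out H G ho ht (by omega) (by omega) (by omega))
      (Fr_out H G ho ht (by omega) (by omega) (by omega))
    by_cases la : l = a
    · subst la
      refine ((A.app hU (by unfold Nr; dsimp only; omega)
        (fun x p q => by have := hU' x q; omega)).app B (by unfold Nr; dsimp only; omega)
        (fun x p q => by
          rcases p with p | p
          · omega
          · have := hU' x p; omega)).congr fun c => ?_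
      by_cases u : U c
      · simp [u]
      by_cases e : c.1 / 4 = l
      · simp only [Up, u, e, o, ne_eq, not_true, false_and, or_false, true_and]
        by_cases g : D.Fr L t c <;> simp only [g, and_true, and_false, or_self] ; omega
      · simp only [u, e, false_and, iff_false, or_false, and_false]; omega
    · refine (A.app B (by unfold Nr; dsimp only; omega) (fun x p q => by omega)).congr fun c => ?_
      by_cases e : c.1 / 4 = l
      · simp only [Up, la, e, o, ne_eq, not_true, false_and, or_false, true_and]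
        by_cases g : D.Fr L t c <;> simp only [g, and_true, and_false, or_self] ; omega
      · simp only [la, e, false_and, iff_false, or_false]; omega
  · have la : l ≠ a := fun e => o (e ▸ ha)
    have A := track (fun x => D.bb t + 2 + f0 x) (4 * l) (4 * l + 3) (by omega) fun x _ _ => by
      have := f0_spec x; have := f0_spec (x + 1); omega
    have p := f0_spec (4 * l)
    have q := f0_spec (4 * l + 3)
    rw [show D.bb t + 2 + f0 (4 * l) = D.bb t + 2 by omega,
      show D.bb t + 2 + f0 (4 * l + 3) = D.bb t + 2 by omega] at A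
    refine A.congr fun c => ?_
    by_cases e : c.1 / 4 = l
    · simp only [Up, e, o, la, ne_eq, not_false_eq_true, false_and, false_or, true_and, or_false]
      omega
    · simp only [e, la, false_and, iff_false, or_false]; omega

theorem lows {t l1 l2 : ℕ} (ht : D.lg t) (h2 : l1 ≤ l2) (hl : l2 < D.N)
    (hp : l2 < D.z t + 8 ∨ D.z t + 8 < l1) :
    HP (fun c => l1 ≤ c.1 / 4 ∧ c.1 / 4 ≤ l2 ∧ Lo D L own t c) (4 * l2 + 3, D.bb t + 1)
      (4 * l1, D.bb t + 1) :=
  ((HP.chain (fun c => c.1 / 4) (fun l c => c.1 / 4 = l ∧ Lo D L own t c)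
    (fun l => (4 * l, D.bb t + 1)) (fun l => (4 * l + 3, D.bb t + 1)) l1 l2 h2
    (fun l p q => lowP H G ho ht (by omega) (by omega))
    (fun l _ _ => by unfold Nr; dsimp only; omega) (fun _ _ _ _ h => h.1)).congr
    fun c => by simp).symm

theorem Up_bd {t : ℕ} (ht : D.lg t) {c : Cl} (h : Up D L own t c) :
    D.bb t + 2 ≤ c.2 ∧ c.2 < D.H2 := by
  have nm := H.num
  have tk := (H.hlg t ht).1
  have := H.hk
  have := f0_spec c.1
  rcases h with h | h
  · omega
  · unfold bb at *; omega

theorem upps {t a : ℕ} (ht : D.lg t) (ha : own a = t) (haN : a < D.N) {U : Cl → Prop}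
    (hU : HP U (4 * a + 2, D.H2) (4 * a + 3, D.H2)) (hU' : ∀ c, U c → D.H2 ≤ c.2 ∨ 4 * D.N ≤ c.1) :
    HP (fun c => (c.1 < 4 * D.N ∧ Up D L own t c) ∨ U c) (0, D.bb t + 2)
      (4 * (D.N - 1) + 3, D.bb t + 2) := by
  refine (HP.chain (fun c => if D.H2 ≤ c.2 ∨ 4 * D.N ≤ c.1 then a else c.1 / 4)
    (fun l c => (c.1 / 4 = l ∧ Up D L own t c) ∨ (l = a ∧ U c))
    (fun l => (4 * l, D.bb t + 2)) (fun l => (4 * l + 3, D.bb t + 2)) 0 (D.N - 1) (by omega)
    (fun l p q => uppP H G ho ht (by omega) ha hU hU')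
    (fun l _ _ => by unfold Nr; dsimp only; omega) ?_).congr fun c => ?_
  · rintro l c p q (h | h)
    · have := Up_bd H G ho ht h.2
      rw [if_neg (by omega)]; exact h.1
    · rw [if_pos (hU' c h.2)]; exact h.1.symm
  · have u := hU' c
    have v := Up_bd H G ho ht (c := c)
    by_cases p : U c <;> by_cases q : Up D L own t c <;>
      simp only [p, q, forall_const, and_true, and_false, or_false, false_or, or_true, iff_true,
        iff_false, IsEmpty.forall_iff, or_self, not_false_eq_true] at u v ⊢ <;>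
      split_ifs <;> omega

end Dat

end Pool.Agent.MP_3c4208_co.U
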