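import Mathlib
import Pool.Agent.MP_3c4208_co.U.Low2

/-! The path of a large gap. -/

set_option autoImplicit false
set_option linter.unusedSectionVars false
set_option linter.unusedVariables false
set_option linter.unusedSimpArgs false

namespace Pool.Agent.MP_3c4208_co.U

theorem or9 {a1 a2 a3 a4 a5 a6 a7 a8 a9 : Prop} :
    (((((((a1 ∨ a2) ∨ a3) ∨ a4) ∨ a5) ∨ a6) ∨ a7) ∨ a8) ∨ a9 ↔
      a1 ∨ a9 ∨ a5 ∨ (a4 ∨ a6) ∨ (a2 ∨ a3 ∨ a7 ∨ a8) := by tauto

/-- Gluing with a rank function. -/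
theorem HP.rk {S T : Cl → Prop} {a b c d : Cl} (rk : Cl → ℕ) (i : ℕ)
    (h : HP S a b ∧ ∀ x, S x → rk x ≤ i) (h' : HP T c d) (hn : Nr b c)
    (hT : ∀ x, T x → rk x = i + 1) :
    HP (fun x => S x ∨ T x) a d ∧ ∀ x, S x ∨ T x → rk x ≤ i + 1 :=
  ⟨h.1.app h' hn fun x p q => by have := h.2 x p; have := hT x q; omega,
    fun x p => p.elim (fun p => by have := h.2 x p; omega) fun q => (hT x q).le⟩

namespace Dat

variable {D : Dat} {L : Lan} (H : D.OK) (G : D.LOK L)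
  {own : ℕ → ℕ} (ho : ∀ j l, D.Pt j l → own l = j)
include H G ho

theorem np_own {t l : ℕ} (a : own l = t) (hp : l ≠ D.z t + 8) (j : ℕ) : ¬ D.Pt j l :=
  fun b => hp (by have := ho j l b; rw [← a, this]; exact b.2)

theorem large {t a : ℕ} (ht : D.lg t) (ha : own a = t) (haN : a < D.N) {U : Cl → Prop}
    (hU : HP U (4 * a + 2, D.H2) (4 * a + 3, D.H2)) (hU' : ∀ c, U c → D.H2 ≤ c.2 ∨ 4 * D.N ≤ c.1) :
    HP (fun c => D.M L t c ∨ (own (c.1 / 4) = t ∧ D.V L c) ∨ U c) (D.X t + 1, D.h t (D.X t + 1))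
      (D.b t, D.h t (D.b t)) := by
  classical
  have nm := H.num
  have hd := H.hlg t ht
  have tk := hd.1
  have hk := H.hk
  have hb : D.bb t + 6 ≤ D.H2 ∧ D.H1 + 2 ≤ D.bb t := by unfold bb; omega
  obtain ⟨p, hp⟩ : ∃ p, p = D.z t + 8 := ⟨_, rfl⟩
  have pt : D.Pt t p := ⟨ht, hp⟩
  have pv := H.Pt_Pv pt
  have pb := H.Pv_bd pv
  have yp := G.yp t p pt
  have op := ho t p pt
  have Fl : ∀ x y, x / 4 = p → y < 2 → D.Fr L t (x, y) := fun x y hx hy =>
    Fr_low H G t (j := t) (by dsimp only; rw [hx]; exact pv) hy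
      (by unfold Fn; dsimp only; rw [hx]; omega)
  have e0 : 4 * p / 4 = p := by omega
  have e2 : (4 * p + 2) / 4 = p := by omega
  have A1 := baseL H G (l := p - 1) hd (by omega) (by omega) fun l' q e => by have := e.2; omega
  have A2 := strip (D.Fr L t) (4 * p) (4 * p + 1) 0 0 (by omega) le_rfl
    (fun y _ _ => Or.inl (Fl _ _ (by omega) (by omega))) (Fl _ _ (by omega) (by omega))
    (Fl _ _ (by omega) (by omega))
  have A3 := strip (D.Fr L t) (4 * p + 1) (4 * p) 1 (D.bb t + 1) (by omega) (by omega)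
    (fun y _ _ => (Fr_row H G t (4 * p) y (by omega) (by omega)).symm) (Fl _ _ (by omega) (by omega))
    (Fr_out H G ho ht (by omega) (by omega) (by omega))
  have A4 := lows H G ho (l1 := 0) (l2 := p - 1) ht (by omega) (by omega) (by omega)
  have A5 := upps H G ho ht ha haN hU hU'
  have A6 := lows H G ho (l1 := p + 1) (l2 := D.N - 1) ht (by omega) (by omega) (by omega)
  have A7 := (strip (D.Fr L t) (4 * p + 2) (4 * p + 3) 1 (D.bb t + 1) (by omega) (by omega)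
    (fun y _ _ => Fr_row H G t (4 * p + 2) y (by omega) (by omega)) (Fl _ _ (by omega) (by omega))
    (Fr_out H G ho ht (by omega) (by omega) (by omega))).symm
  have A8 := (strip (D.Fr L t) (4 * p + 3) (4 * p + 2) 0 0 (by omega) le_rfl
    (fun y _ _ => Or.inl (Fl _ _ (by omega) (by omega))) (Fl _ _ (by omega) (by omega))
    (Fl _ _ (by omega) (by omega))).symm
  have A9 := baseR H G (l := p + 1) hd (by omega) (by omega) fun l' q e => by have := e.2; omega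
  have K1 : ∀ c, D.Bs L t c → c.1 / 4 ≠ p → c.2 < D.H1 ∧ c.1 < 4 * D.N := by
    intro c h e
    refine ⟨?_, (Bs_bd H G h).2.2.2.1⟩
    rcases h with ⟨h, _⟩ | ⟨h, g | g⟩
    · have := H.Tk_bd h; omega
    · unfold Fn at g; omega
    · have := G.y1 t _ h (fun b => e (by rw [hp]; exact b.2)); omega
  have K2 : ∀ c, Lo D L own t c → c.1 / 4 ≠ p → ¬ D.Bs L t c ∧ c.2 ≤ D.bb t + 1 := by
    intro c h e
    rcases h with ⟨_, h1, h2, h3⟩ | ⟨_, h⟩
    · refine ⟨?_, h2⟩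
      rintro (g | ⟨_, g | g⟩)
      · exact h3.1 (Or.inr ⟨t, g⟩)
      · exact h3.2.1 g
      · omega
    · have := f0_spec c.1
      exact ⟨fun g => by have := K1 c g e; omega, by omega⟩
  let rk : Cl → ℕ := fun c => if D.bb t + 2 ≤ c.2 ∨ 4 * D.N ≤ c.1 then 4 else
    if c.1 / 4 = p then (if c.1 % 4 < 2 then (if c.2 = 0 then 1 else 2) else
      (if c.2 = 0 then 7 else 6))
    else if D.Bs L t c then (if c.1 / 4 < p then 0 else 8) else (if c.1 / 4 < p then 3 else 5)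
  have B1 : ∀ x, D.Bs L t x ∧ x.1 / 4 ≤ p - 1 → rk x ≤ 0 := fun x h => by
    have := K1 x h.1 (by omega)
    simp only [rk, h.1, if_true]; split_ifs <;> omega
  have B2 := HP.rk rk 0 ⟨A1, B1⟩ A2 (by unfold Nr; dsimp only; omega) fun x h => by
    simp only [rk]; split_ifs <;> omega
  have B3 := HP.rk rk 1 B2 A3 (by unfold Nr; dsimp only; omega) fun x h => by
    simp only [rk]; split_ifs <;> omega
  have B4 := HP.rk rk 2 B3 A4 (by unfold Nr; dsimp only; omega) fun x h => by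
    have := K2 x h.2.2 (by omega)
    simp only [rk, this.1, if_false]; split_ifs <;> omega
  have B5 := HP.rk rk 3 B4 A5 (by unfold Nr; dsimp only; omega) fun x h => by
    have : D.bb t + 2 ≤ x.2 ∨ 4 * D.N ≤ x.1 := by
      rcases h with h | h
      · exact Or.inl (Up_bd H G ho ht h.2).1
      · have := hU' x h; omega
    simp only [rk, this, if_true]
  have B6 := HP.rk rk 4 B5 A6 (by unfold Nr; dsimp only; omega) fun x h => by
    have := K2 x h.2.2 (by omega)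
    simp only [rk, this.1, if_false]; split_ifs <;> omega
  have B7 := HP.rk rk 5 B6 A7 (by unfold Nr; dsimp only; omega) fun x h => by
    simp only [rk]; split_ifs <;> omega
  have B8 := HP.rk rk 6 B7 A8 (by unfold Nr; dsimp only; omega) fun x h => by
    simp only [rk]; split_ifs <;> omega
  have B9 := HP.rk rk 7 B8 A9 (by unfold Nr; dsimp only; omega) fun x h => by
    have := K1 x h.1 (by omega)
    simp only [rk, h.1, if_true]; split_ifs <;> omega
  have P1 : ∀ c : Cl, c.1 / 4 = p → c.2 ≤ D.bb t + 1 → D.Fr L t c → D.M L t c := fun c e h g =>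
    Or.inl (Or.inr ⟨e ▸ pv, Or.inr ⟨by rw [e]; omega, by rw [e]; omega, g⟩⟩)
  have P2 : ∀ c : Cl, c.1 < 4 * D.N → L.y (c.1 / 4) ≤ c.2 → c.2 < D.H2 → D.Fr L t c →
      D.M L t c ∨ D.V L c := fun c h1 h2 h3 g => by
    by_cases r : D.Rv t c
    · exact Or.inl (Or.inr r)
    · exact Or.inr ⟨h1, h2, h3, g.1, g.2.1, fun t' b => r (g.2.2 t' b ▸ b)⟩
  have P3 : ∀ c : Cl, c.1 < 4 * D.N → Lo D L own t c →
      D.M L t c ∨ (own (c.1 / 4) = t ∧ D.V L c) ∨ U c := by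
    rintro c h1 (⟨o, h2, h3, g⟩ | ⟨_, g⟩)
    · exact (P2 c h1 h2 (by omega) g).elim Or.inl fun v => Or.inr (Or.inl ⟨o, v⟩)
    · exact Or.inl (Or.inr ⟨ht, h1, Or.inl g⟩)
  have P4 : ∀ l, own l = t → L.y l ≤ D.bb t + 2 ∧ (l ≠ p → L.y l ≤ D.H1) := fun l o => by
    by_cases e : l = p
    · rw [e]; omega
    · have := y_np H G (np_own H G ho o (hp ▸ e)); omega
  have P5 : ∀ c : Cl, c.1 / 4 = p → c.2 ≤ D.bb t + 1 → D.Fr L t c →
      ((c.1 = 4 * p ∨ c.1 = 4 * p + 1) ∧ 0 ≤ c.2 ∧ c.2 ≤ 0 ∧ D.Fr L t c) ∨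
      ((c.1 = 4 * p + 1 ∨ c.1 = 4 * p) ∧ 1 ≤ c.2 ∧ c.2 ≤ D.bb t + 1 ∧ D.Fr L t c) ∨
      ((c.1 = 4 * p + 2 ∨ c.1 = 4 * p + 3) ∧ 1 ≤ c.2 ∧ c.2 ≤ D.bb t + 1 ∧ D.Fr L t c) ∨
      ((c.1 = 4 * p + 3 ∨ c.1 = 4 * p + 2) ∧ 0 ≤ c.2 ∧ c.2 ≤ 0 ∧ D.Fr L t c) := fun c e h g => by
    simp only [g, and_true]; omega
  have P6 : ∀ c : Cl, c.1 < 4 * D.N → c.1 / 4 ≠ p → Lo D L own t c →
      (0 ≤ c.1 / 4 ∧ c.1 / 4 ≤ p - 1 ∧ Lo D L own t c) ∨
      (p + 1 ≤ c.1 / 4 ∧ c.1 / 4 ≤ D.N - 1 ∧ Lo D L own t c) := fun c h e g => by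
    simp only [g, and_true]; omega
  refine B9.1.congr fun c => ⟨?_, ?_⟩
  · rintro ((((((((h | h) | h) | h) | h | h) | h) | h) | h) | h)
    · exact Or.inl (Or.inl h.1)
    · exact Or.inl (P1 c (by omega) (by omega) h.2.2.2)
    · exact Or.inl (P1 c (by omega) (by omega) h.2.2.2)
    · exact P3 c (by omega) h.2.2
    · obtain ⟨h1, ⟨o, h2, h3, g⟩ | ⟨_, g⟩⟩ := h
      · have := P4 _ o
        exact (P2 c h1 (by omega) h3 g).elim Or.inl fun v => Or.inr (Or.inl ⟨o, v⟩)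
      · exact Or.inl (Or.inr ⟨ht, h1, Or.inr g⟩)
    · exact Or.inr (Or.inr h)
    · exact P3 c (by omega) h.2.2
    · exact Or.inl (P1 c (by omega) (by omega) h.2.2.2)
    · exact Or.inl (P1 c (by omega) (by omega) h.2.2.2)
    · exact Or.inl (Or.inl h.1)
  · intro h
    refine or9.2 ?_
    rcases h with (h | h) | ⟨o, h⟩ | h
    · rcases lt_trichotomy (c.1 / 4) p with e | e | e
      · exact Or.inl ⟨h, by omega⟩
      · rcases h with ⟨_, h⟩ | ⟨_, h | h⟩
        · exact absurd (e ▸ pv) h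
        · have := h.1; rw [e] at this; omega
        · exact Or.inr (Or.inr (Or.inr (Or.inr
            (P5 c e (by have := h.2.1; rw [e] at this; omega) h.2.2))))
      · exact Or.inr (Or.inl ⟨h, by omega⟩)
    · have g := Fr_Rv H G h
      have f := f0_spec c.1
      have rb := H.Rv_bd h
      obtain ⟨_, h1, h2 | h2⟩ := h
      · by_cases e : c.1 / 4 = p
        · exact Or.inr (Or.inr (Or.inr (Or.inr (P5 c e (by omega) g))))
        · refine Or.inr (Or.inr (Or.inr (Or.inl (P6 c h1 e ?_))))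
          by_cases o : own (c.1 / 4) = t
          · have := P4 _ o
            exact Or.inl ⟨o, by omega, by omega, g⟩
          · exact Or.inr ⟨o, h2⟩
      · refine Or.inr (Or.inr (Or.inl (Or.inl ⟨h1, ?_⟩)))
        by_cases o : own (c.1 / 4) = t
        · exact Or.inl ⟨o, by omega, by omega, g⟩
        · exact Or.inr ⟨o, h2⟩
    · obtain ⟨v1, v2, v3, v4, v5, v6⟩ := h
      have g : D.Fr L t c := ⟨v4, v5, fun t' b => absurd b (v6 t')⟩
      by_cases u : D.bb t + 2 ≤ c.2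
      · exact Or.inr (Or.inr (Or.inl (Or.inl ⟨v1, Or.inl ⟨o, u, v3, g⟩⟩)))
      · have e : c.1 / 4 ≠ p := fun e => by rw [e] at v2; omega
        exact Or.inr (Or.inr (Or.inr (Or.inl (P6 c v1 e (Or.inl ⟨o, v2, by omega, g⟩)))))
    · exact Or.inr (Or.inr (Or.inl (Or.inr h)))

end Dat

end Pool.Agent.MP_3c4208_co.U
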