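import Mathlib
import Pool.Agent.MP_3c4208_co.U.Low1

/-! Counting in the lower region and the choice of the lane data. -/

set_option autoImplicit false
set_option linter.unusedSectionVars false
set_option linter.unusedVariables false
set_option linter.unusedSimpArgs false

namespace Pool.Agent.MP_3c4208_co.U

open Finset

theorem ct_one {n : ℕ} (x y : ℕ) (hx : x < n) (hy : y < n) : ct n (fun c => c = (x, y)) = 1 := by
  have := ct_col (n := n) x y (y + 1) hx hy
  rw [Nat.add_sub_cancel_left] at this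
  rw [← this]
  exact ct_congr fun c _ _ => by simp only [Prod.ext_iff]; omega

theorem alloc (ψ : ℕ → ℕ → ℕ) (M : ℕ) : ∀ K e, (∀ i, i < K → ψ i 0 = 4) →
    (∀ i m, i < K → m < M → ψ i (m + 1) ≤ ψ i m + 16) → (∀ i, i < K → 8 * M ≤ ψ i M) → 4 * K ≤ e →
    e ≤ 8 * M * K → ∃ m : ℕ → ℕ, (∀ i, m i ≤ M) ∧ ∑ i ∈ range K, ψ i (m i) ≤ e ∧
      e ≤ ∑ i ∈ range K, ψ i (m i) + 16 := by
  intro K
  induction K with
  | zero => intro e _ _ _ _ h; exact ⟨fun _ => 0, fun _ => Nat.zero_le _, by simp, by omega⟩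
  | succ K ih =>
    intro e h0 hs hM h1 h2
    by_cases a : ψ K M + 4 * K ≤ e
    · have := hM K (by omega)
      obtain ⟨m, m1, m2, m3⟩ := ih (e - ψ K M) (fun i h => h0 i (by omega))
        (fun i m h => hs i m (by omega)) (fun i h => hM i (by omega)) (by omega)
        (by rw [Nat.mul_succ] at h2; omega)
      have E : ∑ i ∈ range K, ψ i (if i = K then M else m i) = ∑ i ∈ range K, ψ i (m i) :=
        sum_congr rfl fun i hi => by rw [if_neg (mem_range.1 hi).ne]
      refine ⟨fun i => if i = K then M else m i, fun i => by dsimp only; split_ifs; exacts [le_rfl, m1 i],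
        ?_, ?_⟩ <;> rw [sum_range_succ, E] <;> simp only [if_true] <;> omega
    · have ex : ∃ u, e < ψ K u + 4 * K := ⟨M, by omega⟩
      classical
      have p1 := Nat.find_spec ex
      have p2 : Nat.find ex ≤ M := Nat.find_min' ex (by omega)
      have k0 := h0 K (by omega)
      obtain ⟨u, hu⟩ : ∃ u, Nat.find ex = u + 1 := Nat.exists_eq_succ_of_ne_zero fun z => by
        rw [z] at p1; omega
      have p3 := Nat.find_min ex (m := u) (by omega)
      have p4 := hs K u (by omega) (by omega)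
      rw [hu] at p1
      have E : ∑ i ∈ range K, ψ i (if i = K then u else 0) = 4 * K := by
        rw [sum_congr rfl fun i hi => (by
          rw [if_neg (mem_range.1 hi).ne, h0 i (by have := mem_range.1 hi; omega)] :
            ψ i (if i = K then u else 0) = 4)]
        simp [mul_comm]
      refine ⟨fun i => if i = K then u else 0, fun i => by dsimp only; split_ifs <;> omega,
        ?_, ?_⟩ <;> rw [sum_range_succ, E] <;> simp only [if_true] <;> omega

namespace Dat

/-- Free cells of a lane below a given row. -/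
noncomputable def ph (D : Dat) (l y : ℕ) : ℕ := ct D.n fun c => c.1 / 4 = l ∧ c.2 < y ∧ ¬ D.O c

/-- Size of the bottom piece of a private lane. -/
noncomputable def lc (D : Dat) (l y f : ℕ) : ℕ := if y = 1 then 4 + f else D.ph l y

variable {D : Dat} (H : D.OK)
include H

theorem ph_step {l : ℕ} (hl : l < D.N) (y : ℕ) (hy : y + 4 ≤ D.n) : D.ph l (y + 4) ≤ D.ph l y + 16 := by
  have := H.num
  have A := ct_rect (n := D.n) (4 * l) (4 * l + 4) y (y + 4) (by omega) hy
  simp only [Nat.add_sub_cancel_left] at A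
  unfold ph
  rw [show (16 : ℕ) = 4 * 4 by norm_num, ← A]
  refine le_trans (ct_mono fun c _ _ h => ?_) (ct_or_le _ _)
  by_cases a : c.2 < y
  · exact Or.inl ⟨h.1, a, h.2.2⟩
  · right; omega

theorem ph_ge {l : ℕ} (hl : l < D.N) : ∀ y, y ≤ D.n → 2 * y ≤ D.ph l y := by
  have := H.num
  intro y
  induction y with
  | zero => intro _; omega
  | succ y ih =>
    intro hy
    have a := ih (by omega)
    obtain ⟨u, u1, u2⟩ : ∃ u, (u = 4 * l ∨ u = 4 * l + 1) ∧ ¬ D.O (u, y) :=
      (D.Vc_row (4 * l) y (by omega)).elim (fun h => ⟨_, Or.inl rfl, H.O_Vc h⟩)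
        fun h => ⟨_, Or.inr rfl, H.O_Vc h⟩
    obtain ⟨v, v1, v2⟩ : ∃ u, (u = 4 * l + 2 ∨ u = 4 * l + 2 + 1) ∧ ¬ D.O (u, y) :=
      (D.Vc_row (4 * l + 2) y (by omega)).elim (fun h => ⟨_, Or.inl rfl, H.O_Vc h⟩)
        fun h => ⟨_, Or.inr rfl, H.O_Vc h⟩
    have b : D.ph l y + 1 + 1 ≤ D.ph l (y + 1) := by
      unfold ph
      have cu := ct_one (n := D.n) u y (by omega) (by omega)
      have cv := ct_one (n := D.n) v y (by omega) (by omega)
      refine le_trans (Nat.add_le_add (Nat.add_le_add le_rfl cu.ge) cv.ge) ?_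
      rw [← ct_or, ← ct_or]
      · refine ct_mono fun c _ _ h => ?_
        rcases h with (h | rfl) | rfl
        · exact ⟨h.1, by omega, h.2.2⟩
        · exact ⟨by dsimp only; omega, by dsimp only; omega, u2⟩
        · exact ⟨by dsimp only; omega, by dsimp only; omega, v2⟩
      · rintro c (h | h) rfl
        · dsimp only at h; omega
        · simp only [Prod.ext_iff] at h; omega
      · rintro c h rfl
        dsimp only at h; omega
    omega

theorem ct_Lt : ct D.n D.Lt = D.r := by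
  have := H.hn; have := H.hs
  have A := ct_union (n := D.n) (range D.r) (fun i c => c = (2 + 4 * D.s + 364 * i, 1))
    (fun i _ j _ c a b => by rw [a] at b; simp only [Prod.ext_iff] at b; omega)
  rw [sum_congr rfl fun i hi => ct_one _ _ (by have := mem_range.1 hi; omega)
    (by have := mem_range.1 hi; omega)] at A
  simp only [sum_const, card_range, smul_eq_mul, mul_one] at A
  rw [← A]
  exact ct_congr fun c _ _ => by simp only [Lt, mem_range]

theorem ct_Tk {j : ℕ} (hj : j ≤ D.k) : ct D.n (D.Tk j) = D.b j - D.X j := by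
  have := H.XY hj
  have A := ct_graph (n := D.n) (D.h j) (D.X j + 1) (D.b j + 1) (by omega) fun x p q => by
    have := H.Tk_bd (j := j) (c := (x, D.h j x)) ⟨hj, p, by dsimp only; omega, rfl⟩
    have := H.num
    dsimp only at *; omega
  rw [show D.b j - D.X j = D.b j + 1 - (D.X j + 1) by omega, ← A]
  exact ct_congr fun c _ _ => by simp only [Tk, hj, true_and]; omega

theorem ct_Tk_dev {j : ℕ} (hd : D.dev j) :
    ct D.n (fun c => D.Tk j c ∧ ¬ D.Pv j (c.1 / 4)) + 176 = D.b j - D.X j := by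
  have := H.XY hd.1
  have := hd.2
  have := D.z_bd j
  have A := ct_graph (n := D.n) (D.h j) (4 * D.z j) (4 * D.z j + 176) (by omega) fun x p q => by
    have := H.Tk_bd (j := j) (c := (x, D.h j x)) ⟨hd.1, by dsimp only; omega, by dsimp only; omega, rfl⟩
    have := H.num
    dsimp only at *; omega
  rw [Nat.add_sub_cancel_left] at A
  rw [← ct_Tk H hd.1, ct_split (D.Tk j) fun c => D.Pv j (c.1 / 4), add_comm, ← A]
  congr 1
  exact ct_congr fun c _ _ => by simp only [Tk, Pv, hd, hd.1, true_and]; omega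

variable {L : Lan} (G : D.LOK L)
include G

theorem total : D.r + ∑ j ∈ range (D.k + 1), ct D.n (D.M L j) +
    ∑ l ∈ range D.N, ct D.n (fun c => c.1 / 4 = l ∧ D.V L c) = 4 * D.N * D.H2 := by
  have nm := H.num
  have A := ct_rect (n := D.n) 0 (4 * D.N) 0 D.H2 (by omega) (by omega)
  simp only [Nat.sub_zero] at A
  rw [← A, ← ct_Lt H, ← ct_union _ (D.M L) (fun i _ j _ c a b => M_inj H G a b),
    ← ct_union _ (fun l c => c.1 / 4 = l ∧ D.V L c) (fun i _ j _ c a b => a.1.symm.trans b.1),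
    ← ct_or, ← ct_or]
  · refine ct_congr fun c _ _ => ⟨?_, fun h => ?_⟩
    · rintro ((h | ⟨j, _, h⟩) | ⟨l, _, _, h⟩)
      · have := H.O_bd (Or.inl h); omega
      · have := M_bd H G h; omega
      · have := h.1; have := h.2.2.1; omega
    · rcases cover H G c h.2.1 h.2.2.2 with a | a | ⟨j, a⟩
      · exact Or.inl (Or.inl a)
      · exact Or.inr ⟨c.1 / 4, mem_range.2 (by omega), rfl, a⟩
      · exact Or.inl (Or.inr ⟨j, mem_range.2 (by have := M_bd H G a; omega), a⟩)
  · rintro c (h | ⟨j, _, h⟩) ⟨l, _, _, v⟩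
    · exact v.2.2.2.1 (Or.inl h)
    · exact M_V H G h v
  · rintro c h ⟨j, _, a⟩
    exact M_Lt H G a h

theorem ct_V (l : ℕ) : ct D.n (fun c => c.1 / 4 = l ∧ D.V L c) ≤ 4 * D.H2 := by
  have nm := H.num
  by_cases hl : l < D.N
  · have A := ct_rect (n := D.n) (4 * l) (4 * l + 4) 0 D.H2 (by omega) (by omega)
    simp only [Nat.add_sub_cancel_left, Nat.sub_zero] at A
    rw [← A]
    exact ct_mono fun c _ _ h => by have := h.2.2.2.1; omega
  · rw [ct_false fun c h => by have := h.2.1; omega]; omega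

theorem ct_lane {j l : ℕ} (h : D.Pv j l) (hp : ¬ D.Pt j l) (hf : L.f l ≤ 2) :
    ct D.n (fun c => c.1 / 4 = l ∧ D.Bt L j c) = D.lc l (L.y l) (L.f l) := by
  have nm := H.num
  have pb := H.Pv_bd h
  unfold lc
  rcases G.y1 j l h hp with a | a
  · rw [if_pos a]
    have B := ct_band (n := D.n) (fun _ => 0)
      (fun x => if (x % 4 = 0 ∧ 1 ≤ L.f l) ∨ (x % 4 = 3 ∧ 2 ≤ L.f l) then 2 else 1) (4 * l) (4 * l + 4)
      (by omega) (fun _ _ _ => by split_ifs <;> omega)
    rw [sum_Ico_eq_sum_range] at B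
    simp only [Nat.add_sub_cancel_left, sum_range_succ, sum_range_zero] at B
    refine Eq.trans (ct_congr fun c _ _ => ?_) (B.trans (by split_ifs <;> omega))
    by_cases e : c.1 / 4 = l
    · simp only [Bt, Fn, e, a, ne_eq, not_true, false_and, or_false, true_and]
      split_ifs <;> omega
    · simp only [e, false_and, false_iff]; omega
  · rw [if_neg (by omega)]
    refine ct_congr fun c _ _ => and_congr_right fun e => ⟨?_, fun g => ?_⟩
    · rintro (g | g)
      · have := g.1; rw [e] at this; omega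
      · exact ⟨e ▸ g.2.1, g.2.2.1⟩
    · refine Or.inr ⟨by rw [e]; omega, e ▸ g.1, g.2, fun q => ?_, fun t q => ?_⟩
      · have := q.1; rw [e] at this; omega
      · have := H.Rv_bd q; omega

theorem ct_small {j : ℕ} (hd : D.dev j) (hl : ¬ D.lg j) (hf : ∀ l, L.f l ≤ 2) :
    ct D.n (D.M L j) + 176 =
      D.b j - D.X j + ∑ l ∈ Ico (D.z j) (D.z j + 44), D.lc l (L.y l) (L.f l) := by
  rw [← ct_Tk_dev H hd, ← sum_congr rfl fun l hl' => ct_lane H G (j := j) (l := l)
    ⟨hd, (mem_Ico.1 hl').1, (mem_Ico.1 hl').2⟩ (fun a => hl a.1) (hf l),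
    ← ct_union _ _ (fun i _ j _ c a b => a.1.symm.trans b.1), add_right_comm, ← ct_or]
  · congr 1
    refine ct_congr fun c _ _ => ⟨?_, ?_⟩
    · rintro ((h | h) | h)
      · exact Or.inl h
      · exact Or.inr ⟨_, mem_Ico.2 h.1.2, rfl, h.2⟩
      · exact absurd h.1 hl
    · rintro (h | ⟨l, a, rfl, h⟩)
      · exact Or.inl (Or.inl h)
      · exact Or.inl (Or.inr ⟨⟨hd, mem_Ico.1 a⟩, h⟩)
  · rintro c h ⟨l, a, rfl, _⟩
    exact h.2 ⟨hd, mem_Ico.1 a⟩

theorem ct_short {j : ℕ} (hj : j ≤ D.k) (hd : ¬ D.dev j) : ct D.n (D.M L j) = D.b j - D.X j := by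
  rw [← ct_Tk H hj]
  refine ct_congr fun c _ _ => ⟨?_, fun h => Or.inl (Or.inl ⟨h, fun a => hd a.1⟩)⟩
  rintro ((h | h) | h)
  · exact h.1
  · exact absurd h.1.1 hd
  · exact absurd (H.hlg j h.1) hd

theorem ct_large {t : ℕ} (ht : D.lg t)
    (h1 : ∀ l, D.Pv t l → ¬ D.Pt t l → L.y l = 1 ∧ L.f l = 0) :
    ct D.n (D.M L t) + ct D.n (fun c => c.1 / 4 = D.z t + 8 ∧ D.V L c) ≤ D.b t - D.X t + 4 * D.n := by
  classical
  have nm := H.num
  have hd := H.hlg t ht
  have xy := H.XY hd.1
  have pb := H.Pv_bd (H.Pt_Pv (j := t) ⟨ht, rfl⟩)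
  have hb : D.bb t + 6 ≤ D.H2 := by have := hd.1; have := H.hk; unfold bb; omega
  have A := ct_graph (n := D.n) (fun x => if D.Pv t (x / 4) then 0 else D.h t x) (D.X t + 1)
    (D.b t + 1) (by omega) fun x p q => by
      have := H.Tk_bd (j := t) (c := (x, D.h t x)) ⟨hd.1, p, by dsimp only; omega, rfl⟩
      dsimp only at *; split_ifs <;> omega
  have B := ct_rect (n := D.n) (4 * (D.z t + 8)) (4 * (D.z t + 8) + 4) 0 D.H2 (by omega) (by omega)
  have C := ct_graph (n := D.n) (fun x => D.bb t + 1 - f0 x) 0 (4 * D.N) (by omega)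
    fun x _ _ => by omega
  have E := ct_graph (n := D.n) (fun x => D.bb t + 2 + f0 x) 0 (4 * D.N) (by omega)
    fun x _ _ => by have := f0_spec x; omega
  simp only [Nat.add_sub_cancel_left, Nat.sub_zero] at B C E
  rw [← ct_or fun c a b => M_V H G a b.2]
  refine le_trans (le_trans (ct_mono fun c _ _ h => ?_) (le_trans (ct_or_le _ _)
    (Nat.add_le_add (le_trans (ct_or_le _ _) (Nat.add_le_add A.le B.le))
      (le_trans (ct_or_le _ _) (Nat.add_le_add C.le E.le))))) (by omega)
  rcases h with (h | h) | h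
  · left
    have bd := Bs_bd H G h
    by_cases e : c.1 / 4 = D.z t + 8
    · right; omega
    · left
      refine ⟨by omega, by omega, ?_⟩
      rcases h with h | ⟨h, g⟩
      · rw [if_neg h.2]; exact h.1.2.2.2
      · rw [if_pos h]
        have := h1 _ h fun a => e a.2
        rcases g with g | g
        · unfold Fn at g; omega
        · omega
  · right
    have := f0_spec c.1
    obtain ⟨_, a, b⟩ := h
    omega
  · have := h.2.2.2.1
    left; right; omega

omit G in
theorem lanes (g : ℕ → ℕ) (g1 : ∀ j, j ≤ D.k → D.b j - D.X j ≤ g j)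
    (g2 : ∀ j, D.dev j → ¬ D.lg j → g j < D.b j - D.X j + 28 * D.n)
    (g3 : ∀ j, j ≤ D.k → ¬ D.dev j → g j = D.b j - D.X j) :
    ∃ L : Lan, D.LOK L ∧ (∀ j, j ≤ D.k → ¬ D.lg j → ct D.n (D.M L j) = g j) ∧
      ∀ t, D.lg t → ct D.n (D.M L t) + ct D.n (fun c => c.1 / 4 = D.z t + 8 ∧ D.V L c) ≤
        D.b t - D.X t + 4 * D.n := by
  classical
  have nm := H.num
  have A : ∀ j, ∃ Y F : ℕ → ℕ, (∀ l, F l ≤ 2 ∧ (Y l = 1 ∨ (Y l % 4 = 0 ∧ 4 ≤ Y l ∧ Y l ≤ D.H1))) ∧
      (D.lg j → ∀ l, Y l = 1 ∧ F l = 0) ∧ (D.dev j → ¬ D.lg j →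
        D.b j - D.X j + ∑ l ∈ Ico (D.z j) (D.z j + 44), D.lc l (Y l) (F l) = g j + 176) := by
    intro j
    by_cases a : D.dev j ∧ ¬ D.lg j
    swap
    · exact ⟨fun _ => 1, fun _ => 0, fun _ => ⟨Nat.zero_le _, Or.inl rfl⟩, fun _ _ => ⟨rfl, rfl⟩,
        fun p q => absurd ⟨p, q⟩ a⟩
    have a1 := g1 j a.1.1
    have a2 := g2 j a.1 a.2
    have lN : ∀ i, i < 36 → D.z j + 8 + i < D.N := fun i hi => by
      have := H.Pv_bd (j := j) (l := D.z j + 8 + i) ⟨a.1, by omega, by omega⟩; omega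
    obtain ⟨M, hM⟩ : ∃ M, D.H1 = 4 * M := ⟨D.H1 / 4, by omega⟩
    obtain ⟨m, m1, m2, m3⟩ := alloc (fun i m => if m = 0 then 4 else D.ph (D.z j + 8 + i) (4 * m)) M
      36 (g j - (D.b j - D.X j) + 144) (fun _ _ => rfl) (fun i m hi hm => by
        have := ph_step H (lN i hi) (4 * m) (by omega)
        have z : D.ph (D.z j + 8 + i) 0 = 0 := ct_false fun c h => by omega
        rw [if_neg (by omega), show 4 * (m + 1) = 4 * m + 4 by ring]
        split_ifs with e
        · subst e; rw [z] at this; omega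
        · exact this)
      (fun i hi => by
        have := ph_ge H (lN i hi) (4 * M) (by omega)
        rw [if_neg (by omega)]; omega) (by omega) (by omega)
    obtain ⟨ρ, hρ⟩ : ∃ ρ, ρ = g j - (D.b j - D.X j) + 144 - ∑ i ∈ range 36,
      (if m i = 0 then 4 else D.ph (D.z j + 8 + i) (4 * m i)) := ⟨_, rfl⟩
    refine ⟨fun l => if l < D.z j + 8 ∨ m (l - (D.z j + 8)) = 0 then 1 else 4 * m (l - (D.z j + 8)),
      fun l => if l < D.z j + 8 then min 2 (ρ - 2 * (l - D.z j)) else 0, fun l => ?_,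
      fun p => absurd p a.2, fun _ _ => ?_⟩
    · have := m1 (l - (D.z j + 8))
      constructor <;> dsimp only <;> split_ifs <;> omega
    · rw [← sum_Ico_consecutive _ (show D.z j ≤ D.z j + 8 by omega)
        (show D.z j + 8 ≤ D.z j + 44 by omega), sum_Ico_eq_sum_range, sum_Ico_eq_sum_range,
        show D.z j + 8 - D.z j = 8 by omega, show D.z j + 44 - (D.z j + 8) = 36 by omega]
      rw [sum_congr rfl (g := fun i => 4 + min 2 (ρ - 2 * i)) fun i hi => by
          have := mem_range.1 hi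
          have e : D.z j + i < D.z j + 8 := by omega
          simp only [lc, e, true_or, if_true, Nat.add_sub_cancel_left],
        sum_congr rfl (s₁ := range 36)
          (g := fun i => if m i = 0 then 4 else D.ph (D.z j + 8 + i) (4 * m i)) fun i hi => by
          have e : ¬ D.z j + 8 + i < D.z j + 8 := by omega
          simp only [lc, e, false_or, if_false, Nat.add_sub_cancel_left]
          split_ifs <;> omega]
      generalize ∑ i ∈ range 36, (if m i = 0 then 4 else D.ph (D.z j + 8 + i) (4 * m i)) = sg at *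
      simp only [sum_range_succ, sum_range_zero]
      omega
  choose Y F h1 h2 h3 using A
  let w : ℕ → ℕ := fun l => if h : ∃ j, D.Pv j l then h.choose else 0
  have hw : ∀ j l, D.Pv j l → w l = j := fun j l h => by
    have e : ∃ j, D.Pv j l := ⟨j, h⟩
    simp only [w, dif_pos e]
    exact H.Pv_inj e.choose_spec h
  let L : Lan := ⟨fun l => if D.Pv (w l) l then (if D.Pt (w l) l then D.bb (w l) + 2 else Y (w l) l)
    else 0, fun l => F (w l) l⟩
  have y1 : ∀ j l, D.Pv j l → ¬ D.Pt j l → L.y l = Y j l := fun j l a b => by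
    simp only [L, hw j l a, if_pos a, if_neg b]
  have f1 : ∀ j l, D.Pv j l → L.f l = F j l := fun j l a => by simp only [L, hw j l a]
  have G : D.LOK L := ⟨fun l h => by simp only [L, if_neg (h _)], fun j l h => by
    simp only [L, hw j l (H.Pt_Pv h), if_pos (H.Pt_Pv h), if_pos h],
    fun j l a b => by rw [y1 j l a b]; exact (h1 j l).2⟩
  refine ⟨L, G, fun j hj hl => ?_, fun t ht => ct_large H G ht fun l a b => ?_⟩
  · by_cases hd : D.dev j
    · have a := ct_small H G hd hl fun l => (h1 _ l).1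
      have b := h3 j hd hl
      rw [sum_congr rfl fun l hl' => by
        have p : D.Pv j l := ⟨hd, mem_Ico.1 hl'⟩
        rw [y1 j l p fun a => hl a.1, f1 j l p]] at a
      omega
    · rw [ct_short H G hj hd, g3 j hj hd]
  · rw [y1 t l a b, f1 t l a]; exact h2 t ht l

end Dat

end Pool.Agent.MP_3c4208_co.U
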