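import Mathlib
import Pool.Agent.MP_3c4208_co.U.Low3
import Pool.Agent.MP_3c4208_co.U.Low4
import Pool.Agent.MP_3c4208_co.U.Cut

/-! All gaps are realised at once, with the prescribed lengths. -/

set_option autoImplicit false

namespace Pool.Agent.MP_3c4208_co.U

open Finset

theorem gaps {D : Dat} (H : D.OK) (g : ℕ → ℕ) (g1 : ∀ j, j ≤ D.k → D.b j - D.X j ≤ g j)
    (g2 : ∀ j, D.dev j → (D.lg j ↔ D.b j - D.X j + 28 * D.n ≤ g j))
    (g3 : ∀ j, j ≤ D.k → ¬ D.dev j → g j = D.b j - D.X j)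
    (g4 : ∑ j ∈ range (D.k + 1), g j + D.r = D.n * D.n) :
    ∃ T : ℕ → Cl → Prop, (∀ i j c, i ≤ D.k → j ≤ D.k → T i c → T j c → i = j) ∧
      (∀ j c, j ≤ D.k → T j c → c.1 < D.n ∧ c.2 < D.n ∧ ¬ D.Lt c) ∧
      (∀ j, j ≤ D.k → ct D.n (T j) = g j) ∧
      ∀ j, j ≤ D.k → D.X j < D.b j →
        HP (T j) (D.X j + 1, D.h j (D.X j + 1)) (D.b j, D.h j (D.b j)) := by
  classical
  have nm := H.num
  obtain ⟨L, G, L1, L2⟩ := Dat.lanes H g g1
    (fun j a b => by have := (g2 j a).2; by_contra z; exact b (this (by omega))) g3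
  obtain ⟨h, hh⟩ : ∃ h, D.H2 + h = D.n := ⟨D.n - D.H2, by omega⟩
  have h10 : 10 ≤ h := by omega
  have N1 : 1 ≤ D.N := by omega
  obtain ⟨v, hv⟩ : ∃ v : ℕ → ℕ, ∀ l, v l =
    ct D.n fun c => c.1 / 4 = l ∧ D.V L c ∧ ¬ ∃ j, D.Pt j (c.1 / 4) := ⟨_, fun _ => rfl⟩
  obtain ⟨q, hq⟩ : ∃ q : ℕ → ℕ, ∀ j, q j = ct D.n fun c => D.Pt j (c.1 / 4) ∧ D.V L c :=
    ⟨_, fun _ => rfl⟩
  have q0 : ∀ j, ¬ D.lg j → q j = 0 := fun j a => by rw [hq]; exact ct_false fun c b => a b.1.1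
  have q1 : ∀ j, D.lg j → ct D.n (D.M L j) + q j + 24 * D.n ≤ g j := fun j a => by
    have b := L2 j a
    have c := (g2 j (H.hlg j a)).1 a
    have : q j = ct D.n fun c => c.1 / 4 = D.z j + 8 ∧ D.V L c := by
      rw [hq]; exact ct_congr fun c _ _ => by simp only [Dat.Pt, a, true_and]
    omega
  have tot := Dat.total H G
  have s1 : ∑ l ∈ range D.N, ct D.n (fun c => c.1 / 4 = l ∧ D.V L c) =
      ∑ j ∈ range (D.k + 1), q j + ∑ l ∈ range D.N, v l := by
    simp only [hq, hv]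
    rw [← ct_union _ (fun l c => c.1 / 4 = l ∧ D.V L c) (fun i _ j _ c a b => a.1.symm.trans b.1),
      ← ct_union _ (fun j c => D.Pt j (c.1 / 4) ∧ D.V L c)
        (fun i _ j _ c a b => H.Pv_inj (H.Pt_Pv a.1) (H.Pt_Pv b.1)),
      ← ct_union _ (fun l c => c.1 / 4 = l ∧ D.V L c ∧ ¬ ∃ j, D.Pt j (c.1 / 4))
        (fun i _ j _ c a b => a.1.symm.trans b.1), ← ct_or]
    · refine ct_congr fun c _ _ => ⟨?_, ?_⟩
      · rintro ⟨l, a, b, d⟩
        by_cases e : ∃ j, D.Pt j (c.1 / 4)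
        · obtain ⟨j, e⟩ := e
          exact Or.inl ⟨j, mem_range.2 (by have := (H.hlg j e.1).1; omega), e, d⟩
        · exact Or.inr ⟨l, a, b, d, e⟩
      · rintro (⟨j, _, _, d⟩ | ⟨l, a, b, d, _⟩)
        · exact ⟨_, mem_range.2 (by have := d.1; omega), rfl, d⟩
        · exact ⟨l, a, b, d⟩
    · rintro c ⟨j, _, a, _⟩ ⟨l, _, _, _, b⟩
      exact b ⟨j, a⟩
  obtain ⟨e, he⟩ : ∃ e : ℕ → ℕ, ∀ j, e j = if D.lg j then g j - (ct D.n (D.M L j) + q j) else 0 :=
    ⟨_, fun _ => rfl⟩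
  have e1 : ∀ j, j ≤ D.k → e j + (ct D.n (D.M L j) + q j) = g j := fun j a => by
    rw [he]; split_ifs with b
    · have := q1 j b; omega
    · rw [q0 j b, L1 j a b]; omega
  have e2 : ∀ j, D.lg j → 24 * D.n ≤ e j := fun j a => by
    rw [he, if_pos a]; have := q1 j a; omega
  have e3 : ∀ j, ¬ D.lg j → e j = 0 := fun j a => by rw [he, if_neg a]
  obtain ⟨l, S, l0, lN, SA, SS, S0, SL⟩ := cut D.n D.N D.H2 h D.k e v hh (by omega) h10 (by omega)
    (fun l => by
      rw [hv]; exact le_trans (ct_mono fun c _ _ a => ⟨a.1, a.2.1⟩) (Dat.ct_V H G l))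
    (fun j => by by_cases a : D.lg j; exacts [Or.inr (e2 j a), Or.inl (e3 j a)])
    (by
      rw [← sum_congr (s₁ := range (D.k + 1)) rfl fun j hj =>
        e1 j (Nat.le_of_lt_add_one (mem_range.1 hj)), sum_add_distrib, sum_add_distrib] at g4
      have a : 4 * D.N * D.H2 + 4 * D.N * h = 4 * D.N * D.n := by rw [← mul_add, hh]
      have b : 4 * D.N * D.n + (D.n - 4 * D.N) * D.n = D.n * D.n := by
        rw [← add_mul]; congr 1; omega
      omega) nm.1
  have lm : ∀ a b, a ≤ b → b ≤ D.k + 1 → l a ≤ l b := fun a b p => by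
    induction b, p using Nat.le_induction with
    | base => exact fun _ => le_rfl
    | succ b _ ih => intro r; exact le_trans (ih (by omega)) (SS b (by omega)).1
  have ex : ∀ x, ∃ o, (∀ j, D.Pt j x → o = j) ∧
      ((¬ ∃ j, D.Pt j x) → x < D.N → o ≤ D.k ∧ l o ≤ x ∧ x < l (o + 1)) := fun x => by
    by_cases a : ∃ j, D.Pt j x
    · obtain ⟨j, a⟩ := a
      exact ⟨j, fun i b => H.Pv_inj (H.Pt_Pv a) (H.Pt_Pv b), fun b => absurd ⟨j, a⟩ b⟩
    by_cases b : x < D.N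
    · have ex : ∃ o, x < l (o + 1) := ⟨D.k, by omega⟩
      refine ⟨Nat.find ex, fun j c => absurd ⟨j, c⟩ a, fun _ _ =>
        ⟨Nat.find_min' _ (by omega), ?_, Nat.find_spec ex⟩⟩
      by_cases z : Nat.find ex = 0
      · rw [z]; omega
      · have := Nat.find_min ex (m := Nat.find ex - 1) (by omega)
        rw [show Nat.find ex - 1 + 1 = Nat.find ex by omega] at this; omega
    · exact ⟨0, fun j c => absurd ⟨j, c⟩ a, fun _ c => absurd c b⟩
  choose own o1 o2 using ex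
  have o3 : ∀ x j, j ≤ D.k → (¬ ∃ j, D.Pt j x) → x < D.N → (own x = j ↔ l j ≤ x ∧ x < l (j + 1)) :=
    fun x j a b c => by
      have d := o2 x b c
      refine ⟨fun z => z ▸ d.2, fun z => ?_⟩
      rcases lt_trichotomy (own x) j with y | y | y
      · have := lm (own x + 1) j y (by omega); omega
      · exact y
      · have := lm (j + 1) (own x) y (by omega); omega
  have acc : ∀ j, j ≤ D.k → D.lg j → ∃ a, own a = j ∧ a < D.N ∧
      HP (fun c => Bf D.n D.N D.H2 h (S (j + 1)) c ∧ ¬ Bf D.n D.N D.H2 h (S j) c) (4 * a + 2, D.H2)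
        (4 * a + 3, D.H2) ∧
      ∀ c, Bf D.n D.N D.H2 h (S j) c → Bf D.n D.N D.H2 h (S (j + 1)) c := fun j a b => by
    obtain ⟨p1, p2, p3⟩ := SL j a (by have := e2 j b; omega)
    obtain ⟨x, x1, x2, x3⟩ : ∃ x, l j + 1 ≤ x ∧ x ≤ l j + 2 ∧ ¬ ∃ i, D.Pt i x := by
      by_cases z : ∃ i, D.Pt i (l j + 1)
      · refine ⟨l j + 2, by omega, le_rfl, ?_⟩
        rintro ⟨i', y⟩
        obtain ⟨i, z⟩ := z
        have z2 := z.2; have y2 := y.2
        unfold Dat.z at z2 y2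
        split_ifs at z2 y2 <;> omega
      · exact ⟨l j + 1, le_rfl, by omega, z⟩
    have := p3 x x1 x2
    exact ⟨x, (o3 x j a x3 (by omega)).2 (by omega), by omega,
      Bf_piece hh h10 nm.1 N1 (by omega) (by omega) (by omega) this.1 this.2⟩
  have Bm : ∀ a b, a ≤ b → b ≤ D.k + 1 → ∀ c, Bf D.n D.N D.H2 h (S a) c → Bf D.n D.N D.H2 h (S b) c :=
    fun a b p => by
      induction b, p using Nat.le_induction with
      | base => exact fun _ _ => id
      | succ b _ ih =>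
        intro r c u
        by_cases z : D.lg b
        · obtain ⟨_, _, _, _, w⟩ := acc b (by omega) z
          exact w c (ih (by omega) c u)
        · rw [(S0 b (by omega) (e3 b z)).2]; exact ih (by omega) c u
  have Bb : ∀ j c, j ≤ D.k → Bf D.n D.N D.H2 h (S (j + 1)) c →
      c.1 < D.n ∧ c.2 < D.n ∧ (D.H2 ≤ c.2 ∨ 4 * D.N ≤ c.1) := fun j c a b =>
    Bf_box hh h10 nm.1 N1 (SA _ (by omega)) c b
  refine ⟨fun j c => D.M L j c ∨ (own (c.1 / 4) = j ∧ D.V L c) ∨
    (Bf D.n D.N D.H2 h (S (j + 1)) c ∧ ¬ Bf D.n D.N D.H2 h (S j) c), ?_, ?_, ?_, ?_⟩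
  · rintro i j c hi hj (a | a | a) (b | b | b)
    · exact Dat.M_inj H G a b
    · exact absurd b.2 (Dat.M_V H G a)
    · have := Dat.M_bd H G a; have := Bb j c hj b.1; omega
    · exact absurd a.2 (Dat.M_V H G b)
    · exact a.1.symm.trans b.1
    · have := a.2.1; have := a.2.2.2.1; have := Bb j c hj b.1; omega
    · have := Dat.M_bd H G b; have := Bb i c hi a.1; omega
    · have := b.2.1; have := b.2.2.2.1; have := Bb i c hi a.1; omega
    · rcases lt_trichotomy i j with y | y | y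
      · exact absurd (Bm (i + 1) j y (by omega) c a.1) b.2
      · exact y
      · exact absurd (Bm (j + 1) i y (by omega) c b.1) a.2
  · rintro j c hj (a | a | a)
    · have := Dat.M_bd H G a
      exact ⟨by omega, by omega, Dat.M_Lt H G a⟩
    · have := a.2.1; have := a.2.2.2.1
      exact ⟨by omega, by omega, fun b => a.2.2.2.2.1 (Or.inl b)⟩
    · have := Bb j c hj a.1
      exact ⟨by omega, by omega, fun b => by have := H.O_bd (Or.inl b); omega⟩
  · intro j hj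
    have lj := lm (j + 1) (D.k + 1) (by omega) le_rfl
    have c1 : ct D.n (fun c => own (c.1 / 4) = j ∧ D.V L c) = q j + ∑ i ∈ Ico (l j) (l (j + 1)), v i := by
      simp only [hq, hv]
      rw [← ct_union _ (fun l c => c.1 / 4 = l ∧ D.V L c ∧ ¬ ∃ j, D.Pt j (c.1 / 4))
        (fun i _ j _ c a b => a.1.symm.trans b.1), ← ct_or]
      · refine ct_congr fun c _ _ => ⟨?_, ?_⟩
        · rintro ⟨a, b⟩
          by_cases z : ∃ i, D.Pt i (c.1 / 4)
          · obtain ⟨i, z⟩ := z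
            exact Or.inl ⟨(a.symm.trans (o1 _ i z)) ▸ z, b⟩
          · exact Or.inr ⟨_, mem_Ico.2 ((o3 _ j hj z (by have := b.1; omega)).1 a), rfl, b, z⟩
        · rintro (⟨a, b⟩ | ⟨x, a, rfl, b, z⟩)
          · exact ⟨o1 _ j a, b⟩
          · exact ⟨(o3 _ j hj z (by have := b.1; omega)).2 (mem_Ico.1 a), b⟩
      · rintro c ⟨a, _⟩ ⟨x, _, _, _, b⟩
        exact b ⟨j, a⟩
    have c2 := ct_split (n := D.n) (Bf D.n D.N D.H2 h (S (j + 1))) (Bf D.n D.N D.H2 h (S j))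
    rw [Bf_ct hh h10 nm.1 N1 (SA _ (by omega)), ct_congr (T := Bf D.n D.N D.H2 h (S j))
      fun c _ _ => ⟨fun a => a.2, fun a => ⟨Bm j (j + 1) (by omega) (by omega) c a, a⟩⟩,
      Bf_ct hh h10 nm.1 N1 (SA _ (by omega))] at c2
    rw [ct_or, ct_or, c1]
    · have := e1 j hj; have := (SS j hj).2; omega
    · intro c a b
      have := a.2.1; have := a.2.2.2.1; have := Bb j c hj b.1; omega
    · rintro c a (b | b)
      · exact Dat.M_V H G a b.2
      · have := Dat.M_bd H G a; have := Bb j c hj b.1; omega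
  · intro j hj hb
    by_cases z : D.lg j
    · obtain ⟨a, a1, a2, a3, _⟩ := acc j hj z
      exact Dat.large H G (fun i x y => o1 x i y) z a1 a2 a3 fun c u => (Bb j c hj u.1).2.2
    · refine (Dat.small H G hj z hb).congr fun c => ⟨Or.inl, ?_⟩
      have s := S0 j hj (e3 j z)
      rintro (a | ⟨a, b⟩ | a)
      · exact a
      · by_cases y : ∃ i, D.Pt i (c.1 / 4)
        · obtain ⟨i, y⟩ := y
          exact absurd ((a.symm.trans (o1 _ i y)) ▸ y.1) z
        · have := (o3 _ j hj y (by have := b.1; omega)).1 a; omega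
      · rw [s.2] at a; exact absurd a.1 a.2

end Pool.Agent.MP_3c4208_co.U
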