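import Mathlib
import Pool.Agent.MP_3c4208_co.U.Gaps

/-! Universality: every admissible word is read along a path. -/

set_option autoImplicit false

namespace Pool.Agent.MP_3c4208_co.U

open Finset

/-- Index of the letter in a cell, if there is one. -/
def lab (r s : ℕ) (c : Cl) : Option ℕ :=
  if c.2 = 1 ∧ 2 + 4 * s ≤ c.1 ∧ (c.1 - (2 + 4 * s)) % 364 = 0 ∧ (c.1 - (2 + 4 * s)) / 364 < r
  then some ((c.1 - (2 + 4 * s)) / 364) else none

theorem lab_some {r s i : ℕ} {c : Cl} : lab r s c = some i ↔ i < r ∧ c = (2 + 4 * s + 364 * i, 1) := by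
  unfold lab
  split_ifs with h
  · simp only [Option.some.injEq, Prod.ext_iff]; omega
  · simp only [Prod.ext_iff, false_iff]; omega

theorem lab_none {r s : ℕ} {c : Cl} :
    lab r s c = none ↔ ¬ ∃ i, i < r ∧ c = (2 + 4 * s + 364 * i, 1) := by
  simp only [← lab_some]
  cases lab r s c <;> simp

/-- The word with gaps `g 0, …, g k` and letters `ix 0, …, ix (k - 1)`. -/
def wd (ix g : ℕ → ℕ) : ℕ → List (Option ℕ)
  | 0 => List.replicate (g 0) none
  | k + 1 => wd ix g k ++ some (ix k) :: List.replicate (g (k + 1)) none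

/-- Admissible letters and gaps. -/
structure WD (r k : ℕ) (ix g : ℕ → ℕ) : Prop where
  lt : ∀ j, j < k → ix j < r
  inj : ∀ i j, i < k → j < k → ix i = ix j → i = j
  dist : ∀ j, j + 1 < k → 364 * ix j ≤ 364 * ix (j + 1) + g (j + 1) + 1 ∧
    364 * ix (j + 1) ≤ 364 * ix j + g (j + 1) + 1

theorem glue {n r s k : ℕ} {ix g : ℕ → ℕ} (W : WD r k ix g) (hb : ∀ i, i < r → 2 + 4 * s + 364 * i < n)
    (h1 : 1 < n) (T : ℕ → Cl → Prop) (T1 : ∀ i j c, i ≤ k → j ≤ k → T i c → T j c → i = j)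
    (T2 : ∀ j c, j ≤ k → T j c → c.1 < n ∧ c.2 < n ∧ lab r s c = none) (Q : ℕ → List Cl)
    (Q1 : ∀ j, j ≤ k → (Q j).Nodup ∧ (Q j).IsChain Nr ∧ (∀ c ∈ Q j, T j c) ∧ (Q j).length = g j)
    (Q2 : ∀ j, j < k → ∀ x ∈ (Q (j + 1)).head?, Nr (2 + 4 * s + 364 * ix j, 1) x)
    (Q3 : ∀ j, j < k → ∀ x ∈ (Q j).getLast?, Nr x (2 + 4 * s + 364 * ix j, 1))
    (Q4 : ∀ j, j + 1 < k → Q (j + 1) ≠ []) :
    ∃ p : List Cl, p.Nodup ∧ p.IsChain Nr ∧ (∀ c ∈ p, c.1 < n ∧ c.2 < n) ∧
      p.map (lab r s) = wd ix g k := by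
  have R : ∀ j, j ≤ k → (Q j).map (lab r s) = List.replicate (g j) none := fun j hj => by
    obtain ⟨_, _, a, b⟩ := Q1 j hj
    rw [List.eq_replicate_iff]
    refine ⟨by rw [List.length_map, b], fun x hx => ?_⟩
    obtain ⟨c, hc, rfl⟩ := List.mem_map.1 hx
    exact (T2 j c hj (a c hc)).2.2
  have A : ∀ m, m ≤ k → ∃ p : List Cl, p.Nodup ∧ p.IsChain Nr ∧ p.map (lab r s) = wd ix g m ∧
      (∀ c ∈ p, (∃ j, j ≤ m ∧ T j c) ∨ ∃ j, j < m ∧ c = (2 + 4 * s + 364 * ix j, 1)) ∧
      (m < k → ∀ x ∈ p.getLast?, Nr x (2 + 4 * s + 364 * ix m, 1)) := by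
    intro m
    induction m with
    | zero =>
      intro h
      obtain ⟨a, b, c, _⟩ := Q1 0 h
      exact ⟨Q 0, a, b, R 0 h, fun x hx => Or.inl ⟨0, le_rfl, c x hx⟩, Q3 0⟩
    | succ m ih =>
      intro h
      obtain ⟨p, p1, p2, p3, p4, p5⟩ := ih (by omega)
      obtain ⟨a, b, c, _⟩ := Q1 (m + 1) h
      have lb : ∀ j, j < k → lab r s (2 + 4 * s + 364 * ix j, 1) = some (ix j) := fun j hj =>
        lab_some.2 ⟨W.lt j hj, rfl⟩
      have nt : ∀ i j, i ≤ k → j < k → ¬ T i (2 + 4 * s + 364 * ix j, 1) := fun i j hi hj t => by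
        have := (T2 i _ hi t).2.2
        rw [lb j hj] at this; cases this
      refine ⟨p ++ (2 + 4 * s + 364 * ix m, 1) :: Q (m + 1), ?_, ?_, ?_, ?_, ?_⟩
      · rw [List.nodup_append, List.nodup_cons]
        refine ⟨p1, ⟨fun z => nt _ m h h (c _ z), a⟩, ?_⟩
        rintro x hx y hy rfl
        rcases List.mem_cons.1 hy with rfl | hy
        · rcases p4 _ hx with ⟨j, j1, j2⟩ | ⟨j, j1, j2⟩
          · exact nt j m (by omega) h j2
          · simp only [Prod.ext_iff] at j2
            have := W.inj m j h (by omega) (by omega); omega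
        · rcases p4 _ hx with ⟨j, j1, j2⟩ | ⟨j, j1, rfl⟩
          · have := T1 j (m + 1) x (by omega) h j2 (c x hy); omega
          · exact nt _ j h (by omega) (c _ hy)
      · rw [List.isChain_append]
        refine ⟨p2, List.IsChain.cons b (Q2 m h), fun x hx y hy => ?_⟩
        simp only [List.head?_cons, Option.mem_def, Option.some.injEq] at hy
        rw [← hy]; exact p5 h x hx
      · rw [List.map_append, List.map_cons, p3, R _ h, lb m h]; rfl
      · intro x hx
        rcases List.mem_append.1 hx with hx | hx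
        · rcases p4 x hx with ⟨j, j1, j2⟩ | ⟨j, j1, j2⟩
          · exact Or.inl ⟨j, by omega, j2⟩
          · exact Or.inr ⟨j, by omega, j2⟩
        · rcases List.mem_cons.1 hx with rfl | hx
          · exact Or.inr ⟨m, by omega, rfl⟩
          · exact Or.inl ⟨m + 1, le_rfl, c x hx⟩
      · intro hk x hx
        refine Q3 (m + 1) hk x ?_
        obtain ⟨u, l, e⟩ := List.exists_cons_of_ne_nil (Q4 m hk)
        rw [e] at hx ⊢
        simpa [List.getLast?_append, List.getLast?_cons_cons] using hx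
  obtain ⟨p, p1, p2, p3, p4, _⟩ := A k le_rfl
  refine ⟨p, p1, p2, fun c hc => ?_, p3⟩
  rcases p4 c hc with ⟨j, j1, j2⟩ | ⟨j, j1, rfl⟩
  · have := T2 j c j1 j2; omega
  · exact ⟨hb _ (W.lt j j1), h1⟩

/-- The data of the gaps of a word, without large gaps. -/
def dat0 (n r s k : ℕ) (ix g : ℕ → ℕ) : Dat where
  n := n
  r := r
  k := k
  s := s
  R := fun j => if j = 0 then false else if j = k then true else decide (ix (j - 1) < ix j)
  I := fun j => if j = 0 then ix 0 else if j = k then ix (j - 1) else min (ix (j - 1)) (ix j)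
  J := fun j => if j = 0 then ix 0 + 1 else if j = k then ix (j - 1) + 1 else max (ix (j - 1)) (ix j)
  b := fun j => if j = 0 then 2 + 4 * s + 364 * ix 0 + min (g 0) 357 else
    if j = k then 2 + 4 * s + 364 * ix (j - 1) + min (g j) 177
    else 1 + 4 * s + 364 * max (ix (j - 1)) (ix j)
  lg := fun _ => False

/-- The data of the gaps of a word. -/
def dat (n r s k : ℕ) (ix g : ℕ → ℕ) : Dat :=
  { dat0 n r s k ix g with
    lg := fun j => (dat0 n r s k ix g).dev j ∧
      (dat0 n r s k ix g).b j - (dat0 n r s k ix g).X j + 28 * n ≤ g j }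

theorem dat_spec {n r s k : ℕ} {ix g : ℕ → ℕ} (W : WD r k ix g) (hk : 1 ≤ k) (D : Dat)
    (hD : D = dat n r s k ix g) (j : ℕ) (hj : j ≤ k) :
    (j = 0 ∧ (D.R j).toNat = 0 ∧ D.I j = ix j ∧ D.J j = ix j + 1 ∧ ix j < r ∧
      D.b j = 2 + 4 * s + 364 * ix j + min (g j) 357) ∨
    (j = k ∧ (D.R j).toNat = 1 ∧ D.I j = ix (j - 1) ∧ D.J j = ix (j - 1) + 1 ∧ ix (j - 1) < r ∧
      D.b j = 2 + 4 * s + 364 * ix (j - 1) + min (g j) 177) ∨
    (0 < j ∧ j < k ∧ (D.R j).toNat = 1 ∧ D.I j = ix (j - 1) ∧ D.J j = ix j ∧ ix (j - 1) < ix j ∧ ix j < r ∧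
      D.b j = 1 + 4 * s + 364 * ix j ∧ 364 * ix j ≤ 364 * ix (j - 1) + g j + 1) ∨
    (0 < j ∧ j < k ∧ (D.R j).toNat = 0 ∧ D.I j = ix j ∧ D.J j = ix (j - 1) ∧ ix j < ix (j - 1) ∧
      ix (j - 1) < r ∧ D.b j = 1 + 4 * s + 364 * ix (j - 1) ∧
      364 * ix (j - 1) ≤ 364 * ix j + g j + 1) := by
  subst hD
  by_cases a : j = 0
  · subst a
    exact Or.inl ⟨rfl, rfl, rfl, rfl, W.lt 0 hk, rfl⟩
  by_cases b : j = k
  · refine Or.inr (Or.inl ⟨b, ?_, ?_, ?_, W.lt _ (by omega), ?_⟩) <;>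
      simp only [dat, dat0, if_neg a, if_pos b, Bool.toNat_true]
  have c := W.inj (j - 1) j (by omega) (by omega)
  have d := W.dist (j - 1) (by omega)
  have e := W.lt j (by omega)
  have f := W.lt (j - 1) (by omega)
  rw [show j - 1 + 1 = j by omega] at d
  by_cases u : ix (j - 1) < ix j <;>
    simp only [dat, dat0, if_neg a, if_neg b, u, decide_true, decide_false, Bool.toNat_true,
      Bool.toNat_false, true_and, false_and, and_false] <;> omega

theorem univ {n r s k : ℕ} {ix g : ℕ → ℕ} (hn : 1000 * r ≤ n) (hs : s ≤ 1) (hk : 1 ≤ k)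
    (W : WD r k ix g) (tot : ∑ j ∈ range (k + 1), g j + r = n * n) :
    ∃ p : List Cl, p.Nodup ∧ p.IsChain Nr ∧ (∀ c ∈ p, c.1 < n ∧ c.2 < n) ∧
      p.map (lab r s) = wd ix g k := by
  have kr : k ≤ r := by
    have := card_le_card_of_injOn (s := range k) (t := range r) ix
      (fun j hj => by simpa using W.lt j (by simpa using hj))
      (fun i hi j hj e => W.inj i j (by simpa using hi) (by simpa using hj) e)
    simpa using this
  obtain ⟨D, hD⟩ : ∃ D, D = dat n r s k ix g := ⟨_, rfl⟩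
  have S := dat_spec W hk D hD
  have dn : D.n = n := by rw [hD]; rfl
  have dr : D.r = r := by rw [hD]; rfl
  have dk : D.k = k := by rw [hD]; rfl
  have ds : D.s = s := by rw [hD]; rfl
  have dl : ∀ j, D.lg j ↔ D.dev j ∧ D.b j - D.X j + 28 * D.n ≤ g j := by rw [hD]; exact fun _ => Iff.rfl
  have Z : ∀ j, D.z j + 45 * (D.R j).toNat = s + 91 * D.I j + 46 := fun j => by
    unfold Dat.z; rw [ds]; cases D.R j <;> simp
  have X : ∀ j, D.X j = 2 + 4 * s + 364 * D.I j := fun j => by unfold Dat.X; rw [ds]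
  have Y : ∀ j, D.Y j = 2 + 4 * s + 364 * D.J j := fun j => by unfold Dat.Y; rw [ds]
  have H : D.OK := by
    refine ⟨by omega, by omega, by omega, by omega, fun j hj => ?_, fun j hj => ?_,
      fun i j hi hj a b => ?_, fun i j hi hj a b c d => ?_, fun j h => ((dl j).1 h).1⟩
    · have := S j (by omega); omega
    · have z := Z j
      rw [X, Y]
      rcases S j (by omega) with h | h | h | h <;> omega
    · have w1 := W.inj i j
      have w2 := W.inj (i - 1) (j - 1)
      have a' := congrArg Bool.toNat a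
      rcases S i (by omega) with h | h | h | h <;> rcases S j (by omega) with h' | h' | h' | h' <;>
        omega
    · have w1 := W.inj i j
      have w2 := W.inj (i - 1) (j - 1)
      have a' := congrArg Bool.toNat a
      rw [Y] at c d
      rcases S i (by omega) with h | h | h | h <;> rcases S j (by omega) with h' | h' | h' | h' <;>
        omega
  obtain ⟨T, T1, T2, T3, T4⟩ := gaps H g (fun j hj => by have := S j (by omega); rw [X]; omega)
    (fun j h => by rw [dl]; exact and_iff_right h)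
    (fun j hj h => by
      have z := Z j
      unfold Dat.dev at h
      rw [X]
      rcases S j (by omega) with h | h | h | h <;> omega)
    (by rw [dk, dr, dn]; exact tot)
  have EQ : ∀ j, ∃ Q : List Cl, j ≤ k →
      (Q.Nodup ∧ Q.IsChain Nr ∧ (∀ c ∈ Q, T j c) ∧ Q.length = g j) ∧
      (0 < j → ∀ x ∈ Q.head?, Nr (2 + 4 * s + 364 * ix (j - 1), 1) x) ∧
      (j < k → ∀ x ∈ Q.getLast?, Nr x (2 + 4 * s + 364 * ix j, 1)) ∧ (0 < j → j < k → Q ≠ []) := by
    intro j
    by_cases hj : j ≤ k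
    swap
    · exact ⟨[], fun h => absurd h hj⟩
    have sp := S j hj
    have x := X j
    have y := Y j
    by_cases e : D.X j < D.b j
    swap
    · exact ⟨[], fun _ => ⟨⟨by simp, by simp, by simp, by simp; omega⟩, by simp, by simp, by omega⟩⟩
    have xy := H.XY (j := j) (by omega)
    have f1 : D.h j (D.X j + 1) ≤ 2 := ht_first _ _ _ xy.2.2.1
    have f2 : D.b j + 1 = D.Y j → D.h j (D.b j) ≤ 2 := ht_last _ _ _ _ xy.2.2.1
    have P := T4 j (by omega) e
    have K : ∀ a b : Cl, HP (T j) a b → (0 < j → Nr (2 + 4 * s + 364 * ix (j - 1), 1) a) →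
        (j < k → Nr b (2 + 4 * s + 364 * ix j, 1)) → ∃ Q : List Cl, j ≤ k →
        (Q.Nodup ∧ Q.IsChain Nr ∧ (∀ c ∈ Q, T j c) ∧ Q.length = g j) ∧
        (0 < j → ∀ x ∈ Q.head?, Nr (2 + 4 * s + 364 * ix (j - 1), 1) x) ∧
        (j < k → ∀ x ∈ Q.getLast?, Nr x (2 + 4 * s + 364 * ix j, 1)) ∧
        (0 < j → j < k → Q ≠ []) := by
      rintro a b ⟨Q, q1, q2, q3, q4, q5⟩ u v
      refine ⟨Q, fun _ => ⟨⟨q1, q2, fun c hc => (q5 c).1 hc, ?_⟩, fun h x hx => ?_, fun h x hx => ?_,
        fun _ _ z => by rw [z] at q3; cases q3⟩⟩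
      · rw [← T3 j (by omega)]
        exact length_eq_ct q1 q5 fun c hc => by have := T2 j c (by omega) hc; omega
      · rw [q3] at hx; cases hx; exact u h
      · rw [q4] at hx; cases hx; exact v h
    rcases sp with h | h | h | h
    · exact K _ _ P.symm (by omega) fun _ => by unfold Nr; dsimp only; omega
    · exact K _ _ P (fun _ => by unfold Nr; dsimp only; omega) (by omega)
    · exact K _ _ P (fun _ => by unfold Nr; dsimp only; omega)
        fun _ => by unfold Nr; dsimp only; omega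
    · exact K _ _ P.symm (fun _ => by unfold Nr; dsimp only; omega)
        fun _ => by unfold Nr; dsimp only; omega
  choose Q hQ using EQ
  refine glue W (fun i hi => by omega) (by omega) T (fun i j c a b => T1 i j c (by omega) (by omega))
    (fun j c a b => ?_) Q (fun j a => (hQ j a).1) (fun j a => (hQ (j + 1) a).2.1 (by omega))
    (fun j a => (hQ j a.le).2.2.1 a) fun j a => (hQ (j + 1) a.le).2.2.2 (by omega) a
  have := T2 j c (by omega) b
  refine ⟨by omega, by omega, lab_none.2 ?_⟩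
  rw [← dr, ← ds]; exact this.2.2

end Pool.Agent.MP_3c4208_co.U
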