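import Mathlib
import Pool.Agent.MP_3c4208_co.U.Univ

/-! Every path reads an admissible word; transfer of paths between the two placements. -/

set_option autoImplicit false

namespace Pool.Agent.MP_3c4208_co.U

open Finset

theorem wd_congr {ix ix' g g' : ℕ → ℕ} : ∀ k, (∀ j, j < k → ix j = ix' j) → (∀ j, j ≤ k → g j = g' j) →
    wd ix g k = wd ix' g' k
  | 0, _, h => by simp only [wd, h 0 le_rfl]
  | k + 1, a, h => by
    simp only [wd]
    rw [wd_congr k (fun j p => a j (by omega)) (fun j p => h j (by omega)), a k (by omega),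
      h (k + 1) le_rfl]

theorem wd_ext (ix g : ℕ → ℕ) (u : ℕ) : ∀ k,
    wd ix (fun j => if j = k then g k + u else g j) k = wd ix g k ++ List.replicate u none
  | 0 => by simp only [wd, if_true, List.replicate_add]
  | k + 1 => by
    simp only [wd, if_true, List.replicate_add]
    rw [wd_congr (ix' := ix) (g' := g) k (fun _ _ => rfl) fun j p => if_neg (by omega)]
    simp

theorem wd_count (ix g : ℕ → ℕ) : ∀ k, (wd ix g k).count none = ∑ j ∈ range (k + 1), g j
  | 0 => by simp [wd]
  | k + 1 => by
    rw [sum_range_succ, ← wd_count ix g k]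
    simp [wd]

theorem decomp (r s : ℕ) (p : List Cl) : p.Nodup → p.IsChain Nr →
    ∃ (k : ℕ) (ix g : ℕ → ℕ), WD r k ix g ∧ p.map (lab r s) = wd ix g k ∧
      (∀ j, j < k → (2 + 4 * s + 364 * ix j, 1) ∈ p) ∧
      (0 < k → ∀ x ∈ p.getLast?, x.1 ≤ 2 + 4 * s + 364 * ix (k - 1) + g k ∧
        2 + 4 * s + 364 * ix (k - 1) ≤ x.1 + g k) := by
  induction p using List.reverseRecOn with
  | nil =>
    intro _ _
    exact ⟨0, fun _ => 0, fun _ => 0, ⟨by simp, by simp, by simp⟩, rfl, by simp, by simp⟩
  | append_singleton p c ih =>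
    intro h1 h2
    rw [List.nodup_append] at h1
    rw [List.isChain_append] at h2
    obtain ⟨k, ix, g, W, e, m, l⟩ := ih h1.1 h2.1
    have st : 0 < k → c.1 ≤ 2 + 4 * s + 364 * ix (k - 1) + g k + 1 ∧
        2 + 4 * s + 364 * ix (k - 1) ≤ c.1 + g k + 1 := fun hk => by
      have ne : p ≠ [] := List.ne_nil_of_mem (m 0 hk)
      have a : p.getLast ne ∈ p.getLast? := List.getLast_mem_getLast? ne
      have b := l hk _ a
      have d := h2.2.2 _ a c rfl
      unfold Nr at d; omega
    cases hc : lab r s c with
    | none =>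
      refine ⟨k, ix, fun j => if j = k then g k + 1 else g j, ⟨W.lt, W.inj, fun j hj => ?_⟩, ?_,
        fun j hj => List.mem_append_left _ (m j hj), fun hk x hx => ?_⟩
      · rw [if_neg (by omega)]; exact W.dist j hj
      · rw [wd_ext, List.map_append, e]; simp [hc]
      · simp only [List.getLast?_append, List.getLast?_singleton, Option.some_or, Option.mem_def,
          Option.some.injEq] at hx
        have := st hk
        simp only [← hx, if_true]; omega
    | some i =>
      obtain ⟨hi, rfl⟩ := lab_some.1 hc
      have ni : ∀ j, j < k → ix j ≠ i := fun j hj z =>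
        h1.2.2 _ (m j hj) _ (List.mem_singleton_self _) (by rw [z])
      refine ⟨k + 1, fun j => if j = k then i else ix j, fun j => if j = k + 1 then 0 else g j,
        ⟨fun j hj => ?_, fun a b ha hb => ?_, fun j hj => ?_⟩, ?_, fun j hj => ?_, fun _ x hx => ?_⟩
      · split_ifs
        · exact hi
        · exact W.lt j (by omega)
      · have := W.inj a b; have := ni a; have := ni b
        split_ifs <;> omega
      · rw [if_neg (show j ≠ k by omega), if_neg (show j + 1 ≠ k + 1 by omega)]
        split_ifs with z
        · have := st (by omega)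
          subst z
          simp only [Nat.add_sub_cancel] at this; omega
        · exact W.dist j (by omega)
      · simp only [wd, if_true]
        rw [wd_congr (ix' := ix) (g' := g) k (fun j p => if_neg (by omega))
          (fun j p => if_neg (by omega)), List.map_append, e]
        simp [hc]
      · dsimp only
        split_ifs
        · simp
        · exact List.mem_append_left _ (m j (by omega))
      · simp only [List.getLast?_append, List.getLast?_singleton, Option.some_or, Option.mem_def,
          Option.some.injEq] at hx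
        simp only [← hx, Nat.add_sub_cancel, if_true]; omega

theorem ct_blank {n r s : ℕ} (hn : 1000 * r ≤ n) (hs : s ≤ 1) :
    ct n (fun c => lab r s c = none) + r = n * n := by
  have A := ct_union (n := n) (range r) (fun i c => c = (2 + 4 * s + 364 * i, 1))
    (fun i _ j _ c a b => by rw [a] at b; simp only [Prod.ext_iff] at b; omega)
  rw [sum_congr rfl fun i hi => ct_one _ _ (by have := mem_range.1 hi; omega)
    (by have := mem_range.1 hi; omega)] at A
  simp only [sum_const, card_range, smul_eq_mul, mul_one] at A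
  have B := ct_rect (n := n) 0 n 0 n le_rfl le_rfl
  simp only [Nat.sub_zero] at B
  nth_rewrite 2 [← A]
  rw [← B, ← ct_or]
  · refine ct_congr fun c a b => ⟨fun _ => by omega, fun _ => ?_⟩
    simp only [lab_none, mem_range]; tauto
  · intro c a b
    simp only [lab_none, mem_range] at a b; exact a b

theorem transfer {n r s s' : ℕ} (hn : 1000 * r ≤ n) (hr : 1 ≤ r) (hs : s ≤ 1) (hs' : s' ≤ 1)
    (p : List Cl) (h1 : p.Nodup) (h2 : p.IsChain Nr) (h3 : ∀ c ∈ p, c.1 < n ∧ c.2 < n) :
    ∃ q : List Cl, q.Nodup ∧ q.IsChain Nr ∧ (∀ c ∈ q, c.1 < n ∧ c.2 < n) ∧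
      q.map (lab r s') = p.map (lab r s) := by
  obtain ⟨k, ix, g, W, e, -, -⟩ := decomp r s p h1 h2
  have cnt : ∑ j ∈ range (k + 1), g j + r ≤ n * n := by
    rw [← wd_count ix, ← e, ← ct_blank hn hs, List.count_eq_countP, List.countP_map,
      List.countP_eq_length_filter,
      length_eq_ct (n := n) (S := fun c => c ∈ p ∧ lab r s c = none) (h1.filter _)
        (fun c => by simp) fun c hc => h3 c hc.1]
    exact Nat.add_le_add_right (ct_mono fun c _ _ h => h.2) _
  have K : ∀ (k' : ℕ) (ix' g' : ℕ → ℕ) (t : List (Option ℕ)), 1 ≤ k' → WD r k' ix' g' →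
      ∑ j ∈ range (k' + 1), g' j + r = n * n → wd ix' g' k' = wd ix g k ++ t →
      ∃ q : List Cl, q.Nodup ∧ q.IsChain Nr ∧ (∀ c ∈ q, c.1 < n ∧ c.2 < n) ∧
        q.map (lab r s') = p.map (lab r s) := by
    intro k' ix' g' t a b c d
    obtain ⟨q, q1, q2, q3, q4⟩ := univ hn hs' a b c
    refine ⟨q.take (wd ix g k).length, q1.sublist (List.take_sublist _ _), q2.take _,
      fun c hc => q3 c (List.mem_of_mem_take hc), ?_⟩
    rw [List.map_take, q4, d, e, List.take_left]
  by_cases hk : k = 0
  · subst hk
    simp only [zero_add, range_one, sum_singleton] at cnt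
    refine K 1 (fun _ => 0) (fun j => if j = 0 then g 0 else n * n - r - g 0) _ le_rfl
      ⟨fun _ _ => hr, fun _ _ _ _ _ => by omega, fun _ _ => by omega⟩ ?_ rfl
    simp only [sum_range_succ, sum_range_zero, if_true, one_ne_zero, if_false]; omega
  · refine K k ix _ _ (by omega) ⟨W.lt, W.inj, fun j hj => ?_⟩ ?_
      (wd_ext ix g (n * n - r - ∑ j ∈ range (k + 1), g j) k)
    · rw [if_neg (by omega)]; exact W.dist j hj
    · rw [sum_range_succ] at cnt
      rw [sum_range_succ (fun j => if j = k then _ else g j), if_pos rfl,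
        sum_congr (g := fun j => g j) rfl fun j hj => if_neg (mem_range.1 hj).ne, sum_range_succ]
      omega

end Pool.Agent.MP_3c4208_co.U
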