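import Mathlib
import Pool.Agent.MP_3c4208_co.Defs
import Pool.Agent.MP_3c4208_co.U.Word

/-! Two equivalent boards that are not related by a symmetry. -/

set_option autoImplicit false

namespace Pool.Agent.MP_3c4208_co.U

open Finset

theorem labels : ∀ (t : List ℕ) (c : ℕ), ∃ f : ℕ → ℕ, (∀ i, c ≤ f i) ∧
    ∀ (u : ℕ) (hu : u < t.length), ((range t.sum).filter fun i => f i = c + u).card = t[u]
  | [], c => ⟨fun _ => c, fun _ => le_rfl, by simp⟩
  | x :: t, c => by
    obtain ⟨f, f1, f2⟩ := labels t (c + 1)
    refine ⟨fun i => if i < x then c else f (i - x), fun i => ?_, fun u hu => ?_⟩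
    · have := f1 (i - x)
      dsimp only; split_ifs <;> omega
    · rcases u with _ | u
      · simp only [List.getElem_cons_zero, List.sum_cons]
        rw [← card_range x]
        congr 1; ext i
        have := f1 (i - x)
        simp only [mem_filter, mem_range, card_range]
        split_ifs <;> omega
      · simp only [List.getElem_cons_succ, List.sum_cons]
        rw [← f2 u (by simpa using hu), ← card_image_of_injective
          ((range t.sum).filter fun i => f i = c + 1 + u) (add_left_injective x)]
        congr 1; ext i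
        simp only [mem_filter, mem_range, mem_image]
        constructor
        · rintro ⟨a, b⟩
          split_ifs at b with h
          · omega
          · exact ⟨i - x, ⟨by omega, by omega⟩, by omega⟩
        · rintro ⟨j, ⟨a, b⟩, rfl⟩
          rw [if_neg (by omega), Nat.add_sub_cancel]
          omega

/-- Coordinates of a cell. -/
def vl {n : ℕ} (c : Fin n × Fin n) : Cl := (c.1, c.2)

theorem vl_inj {n : ℕ} : Function.Injective (vl (n := n)) := fun a b h => by
  simp only [vl, Prod.mk.injEq] at h
  exact Prod.ext (Fin.ext h.1) (Fin.ext h.2)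

theorem ct_fin {n : ℕ} (S : Cl → Prop) [DecidablePred fun c : Fin n × Fin n => S (vl c)] :
    (Finset.univ.filter fun c : Fin n × Fin n => S (vl c)).card = ct n S := by
  classical
  unfold ct
  rw [← card_image_of_injective _ vl_inj]
  congr 1; ext c
  simp only [mem_image, mem_filter, mem_univ, true_and, mem_product, mem_range]
  constructor
  · rintro ⟨a, h, rfl⟩; exact ⟨⟨a.1.2, a.2.2⟩, h⟩
  · rintro ⟨⟨a, b⟩, h⟩; exact ⟨(⟨c.1, a⟩, ⟨c.2, b⟩), h, rfl⟩

/-- The board with the letters `f 0, …, f (r - 1)` in the second row and `1` elsewhere. -/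
def board (n r s : ℕ) (f : ℕ → ℕ) (c : Fin n × Fin n) : ℕ := (lab r s (vl c)).elim 1 f

theorem board_type {n a s : ℕ} {t : List ℕ} (h : a + t.sum = n * n) (hn : 1000 * t.sum ≤ n)
    (hs : s ≤ 1) {f : ℕ → ℕ} (f1 : ∀ i, 2 ≤ f i)
    (f2 : ∀ (u : ℕ) (hu : u < t.length), ((range t.sum).filter fun i => f i = 2 + u).card = t[u]) :
    HasType (board n t.sum s f) (a :: t) := by
  rintro ⟨i, hi⟩
  unfold board
  rw [ct_fin fun c => (lab t.sum s c).elim 1 f = i + 1]
  rcases i with _ | u
  · have := ct_blank hn hs
    rw [ct_congr (T := fun c => lab t.sum s c = none) fun c _ _ => by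
      cases lab t.sum s c with
      | none => simp
      | some i => have := f1 i; simp; omega]
    simp only [List.get_eq_getElem, List.getElem_cons_zero]; omega
  · have A := ct_union (n := n) ((range t.sum).filter fun i => f i = 2 + u)
      (fun i c => c = (2 + 4 * s + 364 * i, 1))
      (fun i _ j _ c a b => by rw [a] at b; simp only [Prod.ext_iff] at b; omega)
    rw [sum_congr rfl fun i hi => ct_one _ _ (by have := mem_range.1 (mem_filter.1 hi).1; omega)
      (by have := mem_range.1 (mem_filter.1 hi).1; omega)] at A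
    simp only [sum_const, smul_eq_mul, mul_one] at A
    simp only [List.get_eq_getElem, List.getElem_cons_succ]
    rw [← f2 u (by simpa using hi), ← A]
    refine ct_congr fun c _ _ => ?_
    simp only [mem_filter, mem_range]
    cases hc : lab t.sum s c with
    | none =>
      simp only [Option.elim_none]
      exact ⟨by omega, fun ⟨i, a, b⟩ => absurd ⟨i, a.1, b⟩ (lab_none.1 hc)⟩
    | some i =>
      simp only [Option.elim_some]
      refine ⟨fun e => ⟨i, ⟨(lab_some.1 hc).1, by omega⟩, (lab_some.1 hc).2⟩, fun ⟨j, a, b⟩ => ?_⟩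
      have := lab_some.2 ⟨a.1, b⟩
      rw [hc] at this; cases this; omega

theorem board_words {n r s s' : ℕ} (hn : 1000 * r ≤ n) (hr : 1 ≤ r) (hs : s ≤ 1) (hs' : s' ≤ 1)
    (f : ℕ → ℕ) : words (board n r s f) ⊆ words (board n r s' f) := by
  rintro w ⟨p, p1, p2, p3, rfl⟩
  obtain ⟨q, q1, q2, q3, q4⟩ := transfer hn hr hs hs' (p.map vl) (p2.map vl_inj)
    (by
      rw [List.isChain_map]
      refine p3.imp fun a b h => ?_
      obtain ⟨_, h1, h2⟩ := h
      rw [abs_le] at h1 h2
      unfold Nr vl; dsimp only; omega)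
    (fun c hc => by obtain ⟨a, _, rfl⟩ := List.mem_map.1 hc; exact ⟨a.1.2, a.2.2⟩)
  obtain ⟨q', rfl⟩ : ∃ q' : List (Fin n × Fin n), q'.map vl = q := by
    have n0 : 0 < n := by omega
    refine ⟨q.map fun c => (⟨c.1 % n, Nat.mod_lt _ n0⟩, ⟨c.2 % n, Nat.mod_lt _ n0⟩), ?_⟩
    rw [List.map_map]
    refine (List.map_congr_left fun c hc => ?_).trans (List.map_id q)
    simp only [Function.comp, vl, Nat.mod_eq_of_lt (q3 c hc).1, Nat.mod_eq_of_lt (q3 c hc).2, id]
  have nd := List.Nodup.of_map _ q1
  refine ⟨q', ?_, nd, ?_, ?_⟩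
  · have := congrArg List.length q4
    simp only [List.length_map] at this; omega
  · rw [List.isChain_map, List.isChain_iff_getElem] at q2
    rw [List.isChain_iff_getElem]
    intro i hi
    have := q2 i hi
    refine ⟨fun e => ?_, ?_, ?_⟩
    · have := (List.Nodup.getElem_inj_iff nd).1 e; omega
    · unfold Nr vl at this; dsimp only at this; rw [abs_le]; omega
    · unfold Nr vl at this; dsimp only at this; rw [abs_le]; omega
  · have := congrArg (List.map fun o : Option ℕ => o.elim 1 f) q4
    simp only [List.map_map] at this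
    exact this.symm

theorem main (n a : ℕ) (t : List ℕ) (h : a + t.sum = n * n) (h1 : 1 ≤ t.sum)
    (hn : 1000 * t.sum ≤ n) :
    ∃ B : Fin n × Fin n → ℕ, HasType B (a :: t) ∧ ¬ Solvable (a :: t) B := by
  obtain ⟨f, f1, f2⟩ := labels t 2
  refine ⟨board n t.sum 0 f, board_type h hn (by omega) f1 f2, fun S => ?_⟩
  obtain ⟨r1, r2, w, e⟩ := S (board n t.sum 1 f) (board_type h hn le_rfl f1 f2)
    (Set.Subset.antisymm (board_words hn h1 le_rfl (by omega) f)
      (board_words hn h1 (by omega) le_rfl f))
  have e1 := congrFun e (⟨6, by omega⟩, ⟨1, by omega⟩)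
  have l1 : lab t.sum 1 (6, 1) = some 0 := lab_some.2 ⟨h1, rfl⟩
  simp only [board, Function.comp, vl, l1, Option.elim_some] at e1
  have := f1 0
  generalize hc : lab t.sum 0 _ = o at e1
  cases o with
  | none => simp only [Option.elim_none] at e1; omega
  | some i =>
    obtain ⟨a1, a2⟩ := lab_some.1 hc
    cases r1 <;> cases r2 <;> cases w <;>
      simp only [squareSym, Prod.mk.injEq, Bool.false_eq_true, if_false, if_true, Fin.val_rev] at a2 <;>
      omega

end Pool.Agent.MP_3c4208_co.U
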